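import Mathlib
import Pool.Agent.H64.Brouwer

/-!
# The Poincaré–Miranda theorem for a rectangle
-/

namespace Pool.Agent.H61.ETF

open Set Metric

/-- Poincaré–Miranda on the square `[-1, 1]²` -/
lemma pm_square {f g : ℝ × ℝ → ℝ} (hf : ContinuousOn f (closedBall 0 1))
    (hg : ContinuousOn g (closedBall 0 1))
    (h1 : ∀ y ∈ Icc (-1 : ℝ) 1, f (-1, y) < 0) (h2 : ∀ y ∈ Icc (-1 : ℝ) 1, 0 < f (1, y))
    (h3 : ∀ x ∈ Icc (-1 : ℝ) 1, 0 < g (x, -1)) (h4 : ∀ x ∈ Icc (-1 : ℝ) 1, g (x, 1) < 0) :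
    ∃ x ∈ Icc (-1 : ℝ) 1, ∃ y ∈ Icc (-1 : ℝ) 1, f (x, y) = 0 ∧ g (x, y) = 0 := by
  have hF : ContinuousOn (fun p : ℝ × ℝ => (f p, -g p)) (closedBall 0 1) := hf.prodMk hg.neg
  obtain ⟨p, hp, h0⟩ := Pool.Agent.H64.BU.exists_zero_of_homotopic (E := ℝ × ℝ) one_pos hF (by
    rintro ⟨x, y⟩ hxy c hc h
    rw [mem_sphere_zero_iff_norm, Prod.norm_def] at hxy
    simp only [Real.norm_eq_abs] at hxy
    have hx : x ∈ Icc (-1 : ℝ) 1 := abs_le.1 (hxy ▸ le_max_left _ _)
    have hy : y ∈ Icc (-1 : ℝ) 1 := abs_le.1 (hxy ▸ le_max_right _ _)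
    have e1 : f (x, y) = -(c * x) := by simpa using congrArg Prod.fst h
    have e2 : g (x, y) = c * y := by
      have := congrArg Prod.snd h
      simp only [Prod.snd_neg, Prod.smul_snd, smul_eq_mul] at this
      linarith
    rcases max_choice |x| |y| with h' | h' <;> rw [h'] at hxy
    · rcases (abs_eq (zero_le_one' ℝ)).1 hxy with rfl | rfl
      · have := h2 y hy
        linarith
      · have := h1 y hy
        linarith
    · rcases (abs_eq (zero_le_one' ℝ)).1 hxy with rfl | rfl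
      · have := h4 x hx
        linarith
      · have := h3 x hx
        linarith)
  rw [mem_closedBall_zero_iff, Prod.norm_def] at hp
  simp only [Real.norm_eq_abs, max_le_iff, abs_le] at hp
  refine ⟨p.1, hp.1, p.2, hp.2, ?_, ?_⟩
  · simpa using congrArg Prod.fst h0
  · simpa using congrArg Prod.snd h0

/-- **Poincaré–Miranda** on a rectangle -/
theorem pm_rect {a b c d : ℝ} (hab : a < b) (hcd : c < d) {f g : ℝ → ℝ → ℝ}
    (hf : Continuous (fun p : ℝ × ℝ => f p.1 p.2)) (hg : Continuous (fun p : ℝ × ℝ => g p.1 p.2))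
    (h1 : ∀ y ∈ Icc c d, f a y < 0) (h2 : ∀ y ∈ Icc c d, 0 < f b y)
    (h3 : ∀ x ∈ Icc a b, 0 < g x c) (h4 : ∀ x ∈ Icc a b, g x d < 0) :
    ∃ x ∈ Icc a b, ∃ y ∈ Icc c d, f x y = 0 ∧ g x y = 0 := by
  have hu : ∀ {a b : ℝ}, a < b → ∀ t ∈ Icc (-1 : ℝ) 1, (a + b) / 2 + (b - a) / 2 * t ∈ Icc a b := by
    intro a b hab t ht
    constructor <;> nlinarith [ht.1, ht.2]
  have hl : ∀ a b : ℝ, Continuous fun t : ℝ => (a + b) / 2 + (b - a) / 2 * t := by
    intro a b
    fun_prop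
  have hc : Continuous fun p : ℝ × ℝ =>
      ((a + b) / 2 + (b - a) / 2 * p.1, (c + d) / 2 + (d - c) / 2 * p.2) := by fun_prop
  obtain ⟨x, hx, y, hy, e1, e2⟩ := pm_square
    (f := fun p => f ((a + b) / 2 + (b - a) / 2 * p.1) ((c + d) / 2 + (d - c) / 2 * p.2))
    (g := fun p => g ((a + b) / 2 + (b - a) / 2 * p.1) ((c + d) / 2 + (d - c) / 2 * p.2))
    (hf.comp hc).continuousOn (hg.comp hc).continuousOn
    (fun y hy => by
      have := h1 _ (hu hcd y hy)
      simpa only [show (a + b) / 2 + (b - a) / 2 * -1 = a by ring] using this)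
    (fun y hy => by
      have := h2 _ (hu hcd y hy)
      simpa only [show (a + b) / 2 + (b - a) / 2 * 1 = b by ring] using this)
    (fun x hx => by
      have := h3 _ (hu hab x hx)
      simpa only [show (c + d) / 2 + (d - c) / 2 * -1 = c by ring] using this)
    (fun x hx => by
      have := h4 _ (hu hab x hx)
      simpa only [show (c + d) / 2 + (d - c) / 2 * 1 = d by ring] using this)
  exact ⟨_, hu hab x hx, _, hu hcd y hy, e1, e2⟩

end Pool.Agent.H61.ETF
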