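import Mathlib
import Pool.Agent.H37.EtfSig

/-!
# Signature matrices from real matrices

If `W` is a real `n × n` matrix with zero diagonal, `W Wᵀ = (n - 1) I` and
`W i j ^ 2 + W j i ^ 2 = 2` for `i ≠ j`, then there is a Hermitian conference matrix of order `2n`.
-/

namespace Pool.Agent.H61.ETF

open Matrix Pool.Agent.H37.Etf

set_option linter.unusedSectionVars false

variable {ι : Type*} [Fintype ι] [DecidableEq ι]

/-- the Hermitian matrix `R + i K` where `R`, `K` are the symmetric and skew parts of `W` -/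
noncomputable def hm (W : Matrix ι ι ℝ) : Matrix ι ι ℂ :=
  Matrix.of fun i j => (((W i j + W j i) / 2 : ℝ) : ℂ) + Complex.I * (((W i j - W j i) / 2 : ℝ) : ℂ)

lemma hm_eq (W : Matrix ι ι ℝ) : hm W = ((1 + Complex.I) / 2) • W.map (fun x : ℝ => (x : ℂ)) +
    ((1 - Complex.I) / 2) • (W.map (fun x : ℝ => (x : ℂ)))ᵀ := by
  ext i j
  simp only [hm, Matrix.of_apply, Matrix.add_apply, Matrix.smul_apply, Matrix.map_apply,
    Matrix.transpose_apply, smul_eq_mul]
  push_cast
  ring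

lemma hm_herm (W : Matrix ι ι ℝ) : (hm W)ᴴ = hm W := by
  ext i j
  simp only [hm, Matrix.of_apply, Matrix.conjTranspose_apply, Complex.star_def, map_add, map_mul,
    Complex.conj_ofReal, Complex.conj_I]
  push_cast
  ring

lemma hm_conj (W : Matrix ι ι ℝ) : (hm W)ᵀᴴ = (hm W)ᵀ := by
  ext i j
  have := congrFun (congrFun (hm_herm W) j) i
  rw [Matrix.conjTranspose_apply] at this
  rw [Matrix.conjTranspose_apply, Matrix.transpose_apply, Matrix.transpose_apply, this]

lemma hm_norm {W : Matrix ι ι ℝ} {i j : ι} (h : W i j ^ 2 + W j i ^ 2 = 2) : ‖hm W i j‖ = 1 := by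
  have h1 : Complex.normSq (hm W i j) = 1 := by
    rw [hm, Matrix.of_apply, Complex.normSq_apply]
    simp
    nlinarith
  rw [← Real.sqrt_one, ← h1, Complex.norm_def]

theorem sig_of_W {W : Matrix ι ι ℝ} (hd : ∀ i, W i i = 0)
    (ho : ∀ i j, i ≠ j → W i j ^ 2 + W j i ^ 2 = 2)
    (hW : W * Wᵀ = ((Fintype.card ι : ℝ) - 1) • (1 : Matrix ι ι ℝ)) (hc : 2 ≤ Fintype.card ι) :
    ∃ S : Matrix (ι ⊕ ι) (ι ⊕ ι) ℂ, Sig S := by
  have hn : (2 : ℝ) ≤ Fintype.card ι := by exact_mod_cast hc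
  have hn0 : (Fintype.card ι : ℝ) - 1 ≠ 0 := by linarith
  have hW' : Wᵀ * W = ((Fintype.card ι : ℝ) - 1) • (1 : Matrix ι ι ℝ) := by
    have h1 : W * (((Fintype.card ι : ℝ) - 1)⁻¹ • Wᵀ) = 1 := by
      rw [mul_smul_comm, hW, smul_smul, inv_mul_cancel₀ hn0, one_smul]
    have h2 := mul_eq_one_comm.1 h1
    rw [smul_mul_assoc] at h2
    rw [← h2, smul_smul, mul_inv_cancel₀ hn0, one_smul]
  set w : Matrix ι ι ℂ := W.map (fun x : ℝ => (x : ℂ)) with hw
  have e1 : w * wᵀ = ((Fintype.card ι : ℂ) - 1) • (1 : Matrix ι ι ℂ) := by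
    ext i j
    have h := congrFun (congrFun hW i) j
    rw [Matrix.mul_apply] at h ⊢
    simp only [hw, Matrix.map_apply, Matrix.transpose_apply, Matrix.smul_apply, smul_eq_mul] at h ⊢
    have h' : ((∑ l, W i l * W j l : ℝ) : ℂ) =
        ((((Fintype.card ι : ℝ) - 1) * (1 : Matrix ι ι ℝ) i j : ℝ) : ℂ) := by rw [h]
    push_cast at h'
    rw [h', Matrix.one_apply, Matrix.one_apply]
    split_ifs <;> simp
  have e2 : wᵀ * w = ((Fintype.card ι : ℂ) - 1) • (1 : Matrix ι ι ℂ) := by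
    ext i j
    have h := congrFun (congrFun hW' i) j
    rw [Matrix.mul_apply] at h ⊢
    simp only [hw, Matrix.map_apply, Matrix.transpose_apply, Matrix.smul_apply, smul_eq_mul] at h ⊢
    have h' : ((∑ l, W l i * W l j : ℝ) : ℂ) =
        ((((Fintype.card ι : ℝ) - 1) * (1 : Matrix ι ι ℝ) i j : ℝ) : ℂ) := by rw [h]
    push_cast at h'
    rw [h', Matrix.one_apply, Matrix.one_apply]
    split_ifs <;> simp
  have eA : hm W = ((1 + Complex.I) / 2) • w + ((1 - Complex.I) / 2) • wᵀ := hm_eq W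
  have eB : (hm W)ᵀ = ((1 - Complex.I) / 2) • w + ((1 + Complex.I) / 2) • wᵀ := by
    rw [eA, transpose_add, transpose_smul, transpose_smul, transpose_transpose]
    abel
  have c1 : (1 + Complex.I) / 2 * ((1 + Complex.I) / 2) = Complex.I / 2 := by
    linear_combination (1 / 4 : ℂ) * Complex.I_mul_I
  have c2 : (1 - Complex.I) / 2 * ((1 - Complex.I) / 2) = -Complex.I / 2 := by
    linear_combination (1 / 4 : ℂ) * Complex.I_mul_I
  have c3 : (1 + Complex.I) / 2 * ((1 - Complex.I) / 2) = 1 / 2 := by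
    linear_combination (-1 / 4 : ℂ) * Complex.I_mul_I
  have c4 : (1 - Complex.I) / 2 * ((1 + Complex.I) / 2) = 1 / 2 := by
    linear_combination (-1 / 4 : ℂ) * Complex.I_mul_I
  have hcomm : hm W * (hm W)ᵀ = (hm W)ᵀ * hm W := by
    rw [eB, eA]
    simp only [mul_add, add_mul, smul_mul_smul_comm, e1, e2, c1, c2, c3, c4]
    module
  have hsum : hm W * hm W + (hm W)ᵀ * (hm W)ᵀ =
      (2 * ((Fintype.card ι : ℂ) - 1)) • (1 : Matrix ι ι ℂ) := by
    rw [eB, eA]
    simp only [mul_add, add_mul, smul_mul_smul_comm, e1, e2, c1, c2, c3, c4]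
    module
  have hBH : ((hm W)ᵀ + Complex.I • (1 : Matrix ι ι ℂ))ᴴ =
      (hm W)ᵀ - Complex.I • (1 : Matrix ι ι ℂ) := by
    rw [conjTranspose_add, hm_conj, conjTranspose_smul, conjTranspose_one, Complex.star_def,
      Complex.conj_I, neg_smul, sub_eq_add_neg]
  have hZ : (Complex.I • (1 : Matrix ι ι ℂ)) * (Complex.I • (1 : Matrix ι ι ℂ)) = -1 := by
    rw [smul_mul_smul_comm, Complex.I_mul_I, one_mul, neg_smul, one_smul]
  have hdiag : ∀ i, hm W i i = 0 := by
    intro i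
    simp [hm, hd i]
  refine ⟨_, sig_block (A := hm W) (B := (hm W)ᵀ + Complex.I • (1 : Matrix ι ι ℂ)) (hm_herm W)
    hdiag ?_ ?_ ?_ ?_ ?_⟩
  · intro i j hij
    exact hm_norm (ho i j hij)
  · intro i j
    rw [Matrix.add_apply, Matrix.smul_apply, Matrix.transpose_apply]
    by_cases h : i = j
    · subst h
      rw [hdiag, one_apply_eq]
      simp
    · rw [one_apply_ne h]
      simpa using hm_norm (ho j i (Ne.symm h))
  · rw [mul_add, add_mul, hcomm, mul_smul_comm, smul_mul_assoc, mul_one, one_mul]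
  · rw [hBH]
    simp only [mul_sub, sub_mul, mul_smul_comm, smul_mul_assoc, mul_one, one_mul, mul_add, add_mul]
    module
  · rw [hBH, mul_sub, add_mul, add_mul, hZ]
    simp only [mul_smul_comm, smul_mul_assoc, mul_one, one_mul]
    have : hm W * hm W + ((hm W)ᵀ * (hm W)ᵀ + Complex.I • (hm W)ᵀ - (Complex.I • (hm W)ᵀ + -1)) =
        (hm W * hm W + (hm W)ᵀ * (hm W)ᵀ) + 1 := by abel
    rw [this, hsum]
    module

end Pool.Agent.H61.ETF
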