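import Mathlib
import Pool.Agent.H37.EtfCore
import Pool.Agent.H61.ETF.WSig

/-!
# The real matrix `W` of order `p q` from two skew cores of orders `p` and `q`
-/

namespace Pool.Agent.H61.ETF

open Matrix Pool.Agent.H37.Etf
open scoped Kronecker

set_option linter.unusedSectionVars false

variable {α β : Type*} [Fintype α] [DecidableEq α] [Fintype β] [DecidableEq β]

/-- the all-ones matrix -/
def jr (α : Type*) : Matrix α α ℝ := Matrix.of fun _ _ => 1

/-- the real version of a core -/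
noncomputable def rc (C : Matrix α α ℤ) : Matrix α α ℝ := C.map (fun z : ℤ => (z : ℝ))

lemma jr_jr : jr α * jr α = (Fintype.card α : ℝ) • jr α := by
  ext i j
  simp [jr, Matrix.mul_apply]

lemma jr_tr : (jr α)ᵀ = jr α := by
  ext i j
  simp [jr]

variable {C : Matrix α α ℤ}

lemma rc_jr (hC : Core (-1) C) : rc C * jr α = 0 := by
  ext i j
  rw [Matrix.mul_apply]
  simp only [rc, jr, Matrix.map_apply, Matrix.of_apply, mul_one, Matrix.zero_apply]
  have := hC.row i
  exact_mod_cast this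

lemma rc_tr (hC : Core (-1) C) : (rc C)ᵀ = -rc C := by
  ext i j
  simp only [rc, Matrix.transpose_apply, Matrix.map_apply, Matrix.neg_apply]
  rw [hC.symm i j]
  push_cast
  ring

lemma jr_rc (hC : Core (-1) C) : jr α * rc C = 0 := by
  have h1 := congrArg transpose (rc_jr hC)
  rw [transpose_mul, rc_tr hC, jr_tr, transpose_zero, mul_neg] at h1
  exact neg_eq_zero.1 h1

lemma rc_rc (hC : Core (-1) C) :
    rc C * rc C = jr α - (Fintype.card α : ℝ) • (1 : Matrix α α ℝ) := by
  ext i j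
  rw [Matrix.mul_apply]
  simp only [rc, jr, Matrix.map_apply, Matrix.smul_apply, Matrix.sub_apply, Matrix.of_apply,
    smul_eq_mul]
  have h1 := hC.gram i j
  have h2 : ∑ l, C i l * C l j = -1 * ∑ l, C i l * C j l := by
    rw [Finset.mul_sum]
    apply Finset.sum_congr rfl
    intro l _
    rw [hC.symm j l]
    ring
  have h3 : ∑ l, (C i l : ℝ) * (C l j : ℝ) = ((∑ l, C i l * C l j : ℤ) : ℝ) := by
    push_cast; rfl
  rw [h3, h2, h1, Matrix.one_apply]
  split_ifs <;> push_cast <;> ring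

/-- `x I + y J + z C` -/
noncomputable def cm (C : Matrix α α ℤ) (x y z : ℝ) : Matrix α α ℝ :=
  x • (1 : Matrix α α ℝ) + y • jr α + z • rc C

lemma cm_mul (hC : Core (-1) C) (x y z x' y' z' : ℝ) : cm C x y z * cm C x' y' z' =
    cm C (x * x' - Fintype.card α * (z * z')) (x * y' + y * x' + Fintype.card α * (y * y') + z * z')
      (x * z' + z * x') := by
  unfold cm
  simp only [mul_add, add_mul, mul_smul_comm, smul_mul_assoc, mul_one, one_mul, rc_jr hC,
    jr_rc hC, jr_jr, rc_rc hC, smul_zero]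
  module

lemma cm_tr (hC : Core (-1) C) (x y z : ℝ) : (cm C x y z)ᵀ = cm C x y (-z) := by
  unfold cm
  rw [transpose_add, transpose_add, transpose_smul, transpose_smul, transpose_smul,
    transpose_one, jr_tr, rc_tr hC]
  module

lemma cm_add (x y z x' y' z' : ℝ) : cm C x y z + cm C x' y' z' =
    cm C (x + x') (y + y') (z + z') := by
  unfold cm
  module

lemma cm_smul (t x y z : ℝ) : t • cm C x y z = cm C (t * x) (t * y) (t * z) := by
  unfold cm
  module

/-- the product with its transpose of `I ⊗ U + J ⊗ V + P ⊗ T` -/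
lemma kron_mul (hC : Core (-1) C) (U V T : Matrix β β ℝ) :
    ((1 : Matrix α α ℝ) ⊗ₖ U + jr α ⊗ₖ V + rc C ⊗ₖ T) *
      ((1 : Matrix α α ℝ) ⊗ₖ U + jr α ⊗ₖ V + rc C ⊗ₖ T)ᵀ =
    (1 : Matrix α α ℝ) ⊗ₖ (U * Uᵀ + (Fintype.card α : ℝ) • (T * Tᵀ)) +
      jr α ⊗ₖ (U * Vᵀ + V * Uᵀ + (Fintype.card α : ℝ) • (V * Vᵀ) - T * Tᵀ) +
      rc C ⊗ₖ (T * Uᵀ - U * Tᵀ) := by
  have ht : ((1 : Matrix α α ℝ) ⊗ₖ U + jr α ⊗ₖ V + rc C ⊗ₖ T)ᵀ =
      (1 : Matrix α α ℝ) ⊗ₖ Uᵀ + jr α ⊗ₖ Vᵀ - rc C ⊗ₖ Tᵀ := by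
    rw [transpose_add, transpose_add]
    simp only [← Matrix.kroneckerMap_transpose, transpose_one, jr_tr, rc_tr hC]
    ext ⟨i, j⟩ ⟨i', j'⟩
    simp [Matrix.kroneckerMap_apply]
    ring
  rw [ht]
  simp only [mul_add, add_mul, mul_sub, sub_mul, ← Matrix.mul_kronecker_mul, mul_one, one_mul,
    rc_jr hC, jr_rc hC, jr_jr, rc_rc hC]
  ext ⟨i, j⟩ ⟨i', j'⟩
  simp only [Matrix.kroneckerMap_apply, Matrix.add_apply, Matrix.sub_apply, Matrix.smul_apply,
    Matrix.zero_apply, smul_eq_mul]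
  ring

/-- the system of equations for the nine coefficients of `W` -/
def Par (p q : ℝ) : Prop := ∃ a a' b b' g h k l R : ℝ, a ^ 2 + a' ^ 2 = 1 ∧ b ^ 2 + b' ^ 2 = 1 ∧
  g * h + k * l = 0 ∧ g ^ 2 + h ^ 2 + k ^ 2 + l ^ 2 = 1 ∧ R ^ 2 = p * q - 1 ∧
  (q - 1) * a + (p - 1) * b + (p - 1) * (q - 1) * g = R ∧
  (a' + (p - 1) * l) ^ 2 = (a + (p - 1) * g) * (2 * R - q * (a + (p - 1) * g)) ∧
  (b' + (q - 1) * k) ^ 2 = (b + (q - 1) * g) * (2 * R - p * (b + (q - 1) * g)) ∧
  (a' - l) * (b' - k) = h * (g - a - b)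

theorem W_of_par {C : Matrix α α ℤ} {D : Matrix β β ℤ} (hC : Core (-1) C) (hD : Core (-1) D)
    (hp : 2 ≤ Fintype.card α) (hq : 2 ≤ Fintype.card β)
    (h : Par (Fintype.card α) (Fintype.card β)) :
    ∃ W : Matrix (α × β) (α × β) ℝ, (∀ i, W i i = 0) ∧
      (∀ i j, i ≠ j → W i j ^ 2 + W j i ^ 2 = 2) ∧
      W * Wᵀ = ((Fintype.card (α × β) : ℝ) - 1) • (1 : Matrix (α × β) (α × β) ℝ) := by
  obtain ⟨a, a', b, b', g, h, k, l, R, ha, hb, h1, h2, hR, e1, e2, e3, e4⟩ := h
  have hp' : (2 : ℝ) ≤ Fintype.card α := by exact_mod_cast hp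
  have hq' : (2 : ℝ) ≤ Fintype.card β := by exact_mod_cast hq
  set p : ℝ := (Fintype.card α : ℝ) with hpdef
  set q : ℝ := (Fintype.card β : ℝ) with hqdef
  -- the four coefficients
  set A : ℝ := (g - a - b) ^ 2 + q * (a' - l) ^ 2 + p * ((b' - k) ^ 2 + q * h ^ 2) with hA
  set B : ℝ := 2 * (g - a - b) * (a - g) + q * (a - g) ^ 2 - (a' - l) ^ 2 +
    p * (2 * (b' - k) * k + q * k ^ 2 - h ^ 2) with hB
  set K : ℝ := 2 * ((g - a - b) * (b - g) + q * (a' - l) * l) + p * ((b - g) ^ 2 + q * l ^ 2) -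
    ((b' - k) ^ 2 + q * h ^ 2) with hK
  set L : ℝ := 2 * ((g - a - b) * g + (a - g) * (b - g) + q * (a - g) * g - (a' - l) * l) +
    p * (2 * (b - g) * g + q * g ^ 2 - l ^ 2) - (2 * (b' - k) * k + q * k ^ 2 - h ^ 2) with hL
  have s1 : A + p * K = p * q - 1 := by
    rw [hA, hK]
    have hb1 : (p - 1) * b = R - (q - 1) * (a + (p - 1) * g) := by linear_combination e1
    have : (g - a - b + p * (b - g)) = R - q * (a + (p - 1) * g) := by linear_combination e1
    linear_combination (g - a - b + p * (b - g) + R - q * (a + (p - 1) * g)) * this + q * e2 + hR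
  have s2 : A + q * B = p * q - 1 := by
    rw [hA, hB]
    have : (g - a - b + q * (a - g)) = R - p * (b + (q - 1) * g) := by linear_combination e1
    linear_combination (g - a - b + q * (a - g) + R - p * (b + (q - 1) * g)) * this + p * e3 + hR
  have s3 : A + q * B + p * K + p * q * L = p * q - 1 := by
    rw [hA, hB, hK, hL]
    linear_combination (((q - 1) * a + (p - 1) * b + (p - 1) * (q - 1) * g) + R) * e1 + hR
  have s4 : A + B + K + L = p * q - 1 := by
    rw [hA, hB, hK, hL]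
    linear_combination (q - 1) * ha + (p - 1) * hb + (p - 1) * (q - 1) * h2
  have hp0 : p ≠ 0 := by linarith
  have hq0 : q ≠ 0 := by linarith
  have hAv : A = p * q - 1 := by
    have h3 : (p - 1) * (q - 1) * (A - (p * q - 1)) = 0 := by
      linear_combination p * q * s4 + (1 - q) * s1 + (1 - p) * s2 - s3
    have h4 : (p - 1) * (q - 1) ≠ 0 := mul_ne_zero (by linarith) (by linarith)
    have := (mul_eq_zero.1 h3).resolve_left h4
    linarith
  have hBv : B = 0 := by
    have : q * B = 0 := by linarith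
    exact (mul_eq_zero.1 this).resolve_left hq0
  have hKv : K = 0 := by
    have : p * K = 0 := by linarith
    exact (mul_eq_zero.1 this).resolve_left hp0
  have hLv : L = 0 := by linarith
  refine ⟨(1 : Matrix α α ℝ) ⊗ₖ cm D (g - a - b) (a - g) (a' - l) + jr α ⊗ₖ cm D (b - g) g l +
    rc C ⊗ₖ cm D (b' - k) k h, ?_, ?_, ?_⟩
  · rintro ⟨i, j⟩
    simp only [Matrix.add_apply, Matrix.kroneckerMap_apply, Matrix.one_apply_eq, cm,
      Matrix.smul_apply, jr, rc, Matrix.of_apply, Matrix.map_apply, hC.diag, hD.diag, smul_eq_mul]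
    push_cast
    ring
  · rintro ⟨i, j⟩ ⟨i', j'⟩ hij
    simp only [Matrix.add_apply, Matrix.kroneckerMap_apply, cm,
      Matrix.smul_apply, jr, rc, Matrix.of_apply, Matrix.map_apply, smul_eq_mul]
    by_cases h3 : i = i'
    · subst h3
      have h4 : j ≠ j' := fun h => hij (by rw [h])
      rw [Matrix.one_apply_eq, Matrix.one_apply_ne h4, Matrix.one_apply_ne h4.symm, hC.diag,
        hD.symm j j']
      have h5 : (D j j' : ℝ) ^ 2 = 1 := by
        rcases hD.off j j' h4 with h | h <;> rw [h] <;> norm_num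
      push_cast
      linear_combination 2 * ha + 2 * a' ^ 2 * h5
    · rw [Matrix.one_apply_ne h3, Matrix.one_apply_ne (Ne.symm h3), hC.symm i i']
      have h6 : (C i i' : ℝ) ^ 2 = 1 := by
        rcases hC.off i i' h3 with h | h <;> rw [h] <;> norm_num
      by_cases h4 : j = j'
      · subst h4
        rw [Matrix.one_apply_eq, hD.diag]
        push_cast
        linear_combination 2 * hb + 2 * b' ^ 2 * h6
      · rw [Matrix.one_apply_ne h4, Matrix.one_apply_ne (Ne.symm h4), hD.symm j j']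
        have h5 : (D j j' : ℝ) ^ 2 = 1 := by
          rcases hD.off j j' h4 with h | h <;> rw [h] <;> norm_num
        push_cast
        linear_combination 2 * h2 + 4 * (C i i' : ℝ) * (D j j' : ℝ) * h1 +
          2 * k ^ 2 * h6 + 2 * (l ^ 2 + h ^ 2 * (C i i' : ℝ) ^ 2) * h5 + 2 * h ^ 2 * h6
  · have hsub : ∀ x y z x' y' z' : ℝ, cm D x y z - cm D x' y' z' =
        cm D (x - x') (y - y') (z - z') := by
      intro x y z x' y' z'
      unfold cm
      module
    rw [kron_mul hC]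
    have t1 : cm D (g - a - b) (a - g) (a' - l) * (cm D (g - a - b) (a - g) (a' - l))ᵀ +
        (Fintype.card α : ℝ) • (cm D (b' - k) k h * (cm D (b' - k) k h)ᵀ) =
        (p * q - 1) • (1 : Matrix β β ℝ) := by
      have : cm D (p * q - 1) 0 0 = (p * q - 1) • (1 : Matrix β β ℝ) := by
        unfold cm
        module
      rw [← this, cm_tr hD, cm_tr hD, cm_mul hD, cm_mul hD, cm_smul, cm_add]
      congr 1
      · rw [← hAv, hA, ← hqdef, ← hpdef]; ring
      · rw [← hBv, hB, ← hqdef, ← hpdef]; ring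
      · ring
    have t2 : cm D (g - a - b) (a - g) (a' - l) * (cm D (b - g) g l)ᵀ +
        cm D (b - g) g l * (cm D (g - a - b) (a - g) (a' - l))ᵀ +
        (Fintype.card α : ℝ) • (cm D (b - g) g l * (cm D (b - g) g l)ᵀ) -
        cm D (b' - k) k h * (cm D (b' - k) k h)ᵀ = 0 := by
      have : cm D 0 0 0 = 0 := by
        unfold cm
        module
      rw [← this]
      simp only [cm_tr hD, cm_mul hD, cm_smul, cm_add, hsub]
      congr 1
      · rw [← hKv, hK, ← hqdef, ← hpdef]; ring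
      · rw [← hLv, hL, ← hqdef, ← hpdef]; ring
      · ring
    have t3 : cm D (b' - k) k h * (cm D (g - a - b) (a - g) (a' - l))ᵀ -
        cm D (g - a - b) (a - g) (a' - l) * (cm D (b' - k) k h)ᵀ = 0 := by
      have : cm D 0 0 0 = 0 := by
        unfold cm
        module
      rw [← this]
      simp only [cm_tr hD, cm_mul hD, hsub]
      congr 1
      · ring
      · ring
      · linear_combination -2 * e4
    rw [t1, t2, t3, Fintype.card_prod]
    push_cast
    rw [← hqdef, ← hpdef]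
    ext ⟨i, j⟩ ⟨i', j'⟩
    simp only [Matrix.kroneckerMap_apply, Matrix.add_apply, Matrix.smul_apply, Matrix.zero_apply,
      smul_eq_mul, mul_zero, add_zero, Matrix.one_apply, Prod.mk.injEq]
    by_cases h3 : i = i' <;> by_cases h4 : j = j' <;> simp [h3, h4]

/-- the conclusion: a Hermitian conference matrix of order `2 p q` -/
theorem sig_of_par {C : Matrix α α ℤ} {D : Matrix β β ℤ} (hC : Core (-1) C) (hD : Core (-1) D)
    (hp : 2 ≤ Fintype.card α) (hq : 2 ≤ Fintype.card β)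
    (h : Par (Fintype.card α) (Fintype.card β)) :
    ∃ S : Matrix ((α × β) ⊕ (α × β)) ((α × β) ⊕ (α × β)) ℂ, Sig S := by
  obtain ⟨W, h1, h2, h3⟩ := W_of_par hC hD hp hq h
  refine sig_of_W h1 h2 h3 ?_
  rw [Fintype.card_prod]
  nlinarith

end Pool.Agent.H61.ETF
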