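import Mathlib
import Pool.Agent.H61.ETF.PM
import Pool.Agent.H61.ETF.Pair

/-!
# The system of equations on a rectangle
-/

namespace Pool.Agent.H61.ETF

open Set

/-- the real eigenvalue part -/
noncomputable def XX (p q R c : ℝ) : ℝ := (R - (p - 1) * c) / (q - 1)

/-- the imaginary eigenvalue part -/
noncomputable def YY (p q R c : ℝ) : ℝ := √(XX p q R c * (2 * R - q * XX p q R c))

/-- the coefficient `g` -/
noncomputable def gg (p q R x c : ℝ) : ℝ := (R - (q - 1) * x - (p - 1) * c) / ((p - 1) * (q - 1))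

/-- the coefficient `l` -/
noncomputable def ll (s p q R x c : ℝ) : ℝ := (s * YY p q R c - √(1 - x ^ 2)) / (p - 1)

/-- the coefficient `k` -/
noncomputable def kk (s p q R x c : ℝ) : ℝ := (s * YY q p R x - √(1 - c ^ 2)) / (q - 1)

/-- the modulus of the coefficient `h` -/
noncomputable def HH (s p q R x c : ℝ) : ℝ :=
  √(1 - gg p q R x c ^ 2 - kk s p q R x c ^ 2 - ll s p q R x c ^ 2)

/-- the first function -/
noncomputable def F1 (s p q R x c : ℝ) : ℝ :=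
  kk s p q R x c * ll s p q R x c - gg p q R x c * HH s p q R x c

/-- the second function -/
noncomputable def F2 (s p q R x c : ℝ) : ℝ :=
  (√(1 - x ^ 2) - ll s p q R x c) * (√(1 - c ^ 2) - kk s p q R x c) -
    HH s p q R x c * (x + c - gg p q R x c)

lemma cont_F1 (s p q R : ℝ) : Continuous fun z : ℝ × ℝ => F1 s p q R z.1 z.2 := by
  unfold F1 HH kk ll gg YY XX
  fun_prop

lemma cont_F2 (s p q R : ℝ) : Continuous fun z : ℝ × ℝ => F2 s p q R z.1 z.2 := by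
  unfold F2 HH kk ll gg YY XX
  fun_prop

theorem par_of_box {s p q R x0 x1 : ℝ} (hp : 1 < p) (hq : 1 < q) (hR : R ^ 2 = p * q - 1)
    (hs : s ^ 2 = 1) (hx : x0 < x1)
    (dx : ∀ x ∈ Icc x0 x1, x ^ 2 ≤ 1 ∧ 0 ≤ XX q p R x * (2 * R - p * XX q p R x))
    (dc : ∀ c ∈ Icc (0 : ℝ) 1, 0 ≤ XX p q R c * (2 * R - q * XX p q R c))
    (hH : ∀ x ∈ Icc x0 x1, ∀ c ∈ Icc (0 : ℝ) 1,
      gg p q R x c ^ 2 + kk s p q R x c ^ 2 + ll s p q R x c ^ 2 ≤ 1)
    (h1 : ∀ c ∈ Icc (0 : ℝ) 1, F1 s p q R x0 c < 0) (h2 : ∀ c ∈ Icc (0 : ℝ) 1, 0 < F1 s p q R x1 c)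
    (h3 : ∀ x ∈ Icc x0 x1, 0 < F2 s p q R x 0) (h4 : ∀ x ∈ Icc x0 x1, F2 s p q R x 1 < 0) :
    Par p q := by
  obtain ⟨x, hx', c, hc, e1, e2⟩ := pm_rect hx one_pos (cont_F1 s p q R) (cont_F2 s p q R)
    h1 h2 h3 h4
  obtain ⟨hx1, hx2⟩ := dx x hx'
  have hc1 := dc c hc
  have hHH := hH x hx' c hc
  have hcc : c ^ 2 ≤ 1 := by nlinarith [hc.1, hc.2]
  have hp0 : p - 1 ≠ 0 := by linarith
  have hq0 : q - 1 ≠ 0 := by linarith
  have hXc : x + (p - 1) * gg p q R x c = XX p q R c := by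
    unfold gg XX
    field_simp
    ring
  have hXx : c + (q - 1) * gg p q R x c = XX q p R x := by
    unfold gg XX
    field_simp
    ring
  have hYc : √(1 - x ^ 2) + (p - 1) * ll s p q R x c = s * YY p q R c := by
    unfold ll
    field_simp
    ring
  have hYx : √(1 - c ^ 2) + (q - 1) * kk s p q R x c = s * YY q p R x := by
    unfold kk
    field_simp
    ring
  have hsx : √(1 - x ^ 2) ^ 2 = 1 - x ^ 2 := Real.sq_sqrt (by linarith)
  have hsc : √(1 - c ^ 2) ^ 2 = 1 - c ^ 2 := Real.sq_sqrt (by linarith)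
  have hHs : HH s p q R x c ^ 2 =
      1 - gg p q R x c ^ 2 - kk s p q R x c ^ 2 - ll s p q R x c ^ 2 :=
    Real.sq_sqrt (by linarith)
  have hY1 : YY p q R c ^ 2 = XX p q R c * (2 * R - q * XX p q R c) := Real.sq_sqrt hc1
  have hY2 : YY q p R x ^ 2 = XX q p R x * (2 * R - p * XX q p R x) := Real.sq_sqrt hx2
  refine ⟨x, √(1 - x ^ 2), c, √(1 - c ^ 2), gg p q R x c, -HH s p q R x c, kk s p q R x c,
    ll s p q R x c, R, ?_, ?_, ?_, ?_, hR, ?_, ?_, ?_, ?_⟩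
  · rw [hsx]; ring
  · rw [hsc]; ring
  · unfold F1 at e1
    linear_combination e1
  · linear_combination hHs
  · unfold gg
    field_simp
    ring
  · rw [hYc, hXc, mul_pow, hs, hY1, one_mul]
  · rw [hYx, hXx, mul_pow, hs, hY2, one_mul]
  · unfold F2 at e2
    linear_combination e2

end Pool.Agent.H61.ETF
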