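import Mathlib
import Pool.Agent.H61.ETF.Box

/-!
# Solutions of the system for `7 ≤ p`, `p + 4 ≤ q`
-/

namespace Pool.Agent.H61.ETF

open Set

section basic

variable {p q R : ℝ}

lemma xx_id (hp : 1 < p) (x : ℝ) :
    (p - 1) * XX q p R x = R - (q - 1) * x := by
  have : p - 1 ≠ 0 := by linarith
  unfold XX
  field_simp

lemma xx_id' (hp : 1 < p) (x : ℝ) :
    (p - 1) * (2 * R - p * XX q p R x) = (p - 2) * R + p * (q - 1) * x := by
  have := xx_id (p := p) (q := q) (R := R) hp x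
  linear_combination (-p) * this

lemma yy_nonneg (x : ℝ) : 0 ≤ YY p q R x := Real.sqrt_nonneg _

lemma yy_le (hp : 0 < p) (hR : R ^ 2 = p * q - 1) (x : ℝ) : YY q p R x ≤ √q := by
  unfold YY
  apply Real.sqrt_le_sqrt
  have h : p * (XX q p R x * (2 * R - p * XX q p R x)) ≤ p * q := by
    nlinarith [sq_nonneg (R - p * XX q p R x)]
  exact le_of_mul_le_mul_left h hp

lemma hh_nonneg {s x c : ℝ} : 0 ≤ HH s p q R x c := Real.sqrt_nonneg _

lemma sqrt_le_one' {a : ℝ} (h : a ≤ 1) : √a ≤ 1 :=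
  Real.sqrt_le_iff.2 ⟨zero_le_one, by linarith⟩

lemma hh_le_one {s x c : ℝ} : HH s p q R x c ≤ 1 := by
  unfold HH
  apply sqrt_le_one'
  nlinarith [sq_nonneg (gg p q R x c), sq_nonneg (kk s p q R x c), sq_nonneg (ll s p q R x c)]

end basic

/-- the left end of the interval for `x` -/
noncomputable def xl (p q R : ℝ) : ℝ := -(R * (p - 2) / (p * (q - 1)))

variable {p q R : ℝ}

section big

variable (hp : 7 ≤ p) (hpq : p + 4 ≤ q) (hR : R ^ 2 = p * q - 1) (hR0 : 0 < R)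

include hp hpq hR hR0

lemma R_lt : R < q := by nlinarith

lemma p_lt : p < R := by nlinarith

lemma xl_id : p * (q - 1) * xl p q R = -(R * (p - 2)) := by
  have h1 : p ≠ 0 := by linarith
  have h2 : q - 1 ≠ 0 := by linarith
  unfold xl
  field_simp

lemma xl_ge : -1 ≤ xl p q R := by
  have h := xl_id hp hpq hR hR0
  have h1 := R_lt hp hpq hR hR0
  have h2 : 0 < p * (q - 1) := mul_pos (by linarith) (by linarith)
  have h3 : p * (q - 1) * (-1) ≤ p * (q - 1) * xl p q R := by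
    rw [h]
    nlinarith
  exact le_of_mul_le_mul_left h3 h2

lemma xl_neg : xl p q R < 0 := by
  have h := xl_id hp hpq hR hR0
  have h2 : 0 < p * (q - 1) := mul_pos (by linarith) (by linarith)
  have h3 : p * (q - 1) * xl p q R < p * (q - 1) * 0 := by
    rw [h]
    nlinarith
  exact lt_of_mul_lt_mul_left h3 h2.le

lemma x_sq {x : ℝ} (hx : x ∈ Icc (xl p q R) 0) : x ^ 2 ≤ 1 := by
  have h1 := xl_ge hp hpq hR hR0
  nlinarith [hx.1, hx.2]

lemma xi_nonneg {x : ℝ} (hx : x ∈ Icc (xl p q R) 0) : 0 ≤ 2 * R - p * XX q p R x := by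
  have h := xx_id' (p := p) (q := q) (R := R) (by linarith) x
  have h1 := xl_id hp hpq hR hR0
  have h2 : 0 < p * (q - 1) := mul_pos (by linarith) (by linarith)
  have h3 : 0 ≤ (p - 1) * (2 * R - p * XX q p R x) := by
    rw [h]
    nlinarith [mul_le_mul_of_nonneg_left hx.1 h2.le]
  exact nonneg_of_mul_nonneg_right h3 (by linarith)

lemma xx_nonneg {x : ℝ} (hx : x ∈ Icc (xl p q R) 0) : 0 ≤ XX q p R x := by
  have h := xx_id (p := p) (q := q) (R := R) (by linarith) x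
  have h3 : 0 ≤ (p - 1) * XX q p R x := by
    rw [h]
    nlinarith [hx.2]
  exact nonneg_of_mul_nonneg_right h3 (by linarith)

lemma xc_pos {c : ℝ} (hc : c ∈ Icc (0 : ℝ) 1) : 0 < XX p q R c := by
  have h := xx_id (p := q) (q := p) (R := R) (by linarith) c
  have h1 := p_lt hp hpq hR hR0
  have h3 : 0 < (q - 1) * XX p q R c := by
    rw [h]
    nlinarith [hc.2]
  exact (mul_pos_iff_of_pos_left (by linarith)).1 h3

lemma xc_pos' {c : ℝ} (hc : c ∈ Icc (0 : ℝ) 1) : 0 < 2 * R - q * XX p q R c := by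
  have h := xx_id' (p := q) (q := p) (R := R) (by linarith) c
  have h3 : 0 < (q - 1) * (2 * R - q * XX p q R c) := by
    rw [h]
    have : 0 ≤ q * (p - 1) * c := mul_nonneg (mul_nonneg (by linarith) (by linarith)) hc.1
    nlinarith
  exact (mul_pos_iff_of_pos_left (by linarith)).1 h3

lemma gg_pos {x c : ℝ} (hx : x ∈ Icc (xl p q R) 0) (hc : c ∈ Icc (0 : ℝ) 1) :
    0 < gg p q R x c := by
  have h1 := p_lt hp hpq hR hR0
  unfold gg
  apply div_pos
  · nlinarith [hx.2, hc.2]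
  · exact mul_pos (by linarith) (by linarith)

lemma gg_le {x c : ℝ} (hx : x ∈ Icc (xl p q R) 0) (hc : c ∈ Icc (0 : ℝ) 1) :
    p * (q - 1) * gg p q R x c ≤ 2 * R := by
  have h1 := xl_id hp hpq hR hR0
  have h2 : (p - 1) * (q - 1) * gg p q R x c = R - (q - 1) * x - (p - 1) * c := by
    have h3 : p - 1 ≠ 0 := by linarith
    have h4 : q - 1 ≠ 0 := by linarith
    unfold gg
    field_simp
  have h3 : 0 < p * (q - 1) := mul_pos (by linarith) (by linarith)
  have h4 : (p - 1) * (p * (q - 1) * gg p q R x c) ≤ (p - 1) * (2 * R) := by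
    have h5 : (p - 1) * (p * (q - 1) * gg p q R x c) =
      p * R - p * (q - 1) * x - p * (p - 1) * c := by linear_combination p * h2
    rw [h5]
    have h6 : 0 ≤ p * (p - 1) * c := mul_nonneg (mul_nonneg (by linarith) (by linarith)) hc.1
    nlinarith [mul_le_mul_of_nonneg_left hx.1 h3.le]
  exact le_of_mul_le_mul_left h4 (by linarith)

/-- the general lower bound for `H` -/
lemma hh_sq_ge {η x c : ℝ} (hx : x ∈ Icc (xl p q R) 0) (hc : c ∈ Icc (0 : ℝ) 1)
    (hη : η ≤ 1 - 1 / (√p - 1) ^ 2 - 1 / (√q - 1) ^ 2 - 4 * q / (p * (q - 1) ^ 2)) :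
    gg p q R x c ^ 2 + kk (-1) p q R x c ^ 2 + ll (-1) p q R x c ^ 2 ≤ 1 - η := by
  set s := √p with hs
  set w := √q with hw
  have hs2 : s ^ 2 = p := Real.sq_sqrt (by linarith)
  have hw2 : w ^ 2 = q := Real.sq_sqrt (by linarith)
  have hs1 : 1 < s := by
    rw [hs]; exact Real.lt_sqrt_of_sq_lt (by linarith)
  have hw1 : 1 < w := by
    rw [hw]; exact Real.lt_sqrt_of_sq_lt (by linarith)
  have e1 : gg p q R x c ^ 2 ≤ 4 * q / (p * (q - 1) ^ 2) := by
    have h1 := gg_le hp hpq hR hR0 hx hc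
    have h2 := (gg_pos hp hpq hR hR0 hx hc).le
    have h3 : 0 < p * (q - 1) := mul_pos (by linarith) (by linarith)
    rw [le_div_iff₀ (by have : 0 < q - 1 := by linarith
                        positivity)]
    have h4 : (p * (q - 1) * gg p q R x c) ^ 2 ≤ (2 * R) ^ 2 :=
      pow_le_pow_left₀ (by positivity) h1 2
    have h5 : p * (gg p q R x c ^ 2 * (p * (q - 1) ^ 2)) ≤ p * (4 * q) := by nlinarith
    exact le_of_mul_le_mul_left h5 (by linarith)
  have e2 : kk (-1) p q R x c ^ 2 ≤ 1 / (w - 1) ^ 2 := by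
    have h1 : √(1 - c ^ 2) ≤ 1 := by
      apply sqrt_le_one'; nlinarith [sq_nonneg c]
    have h2 := Real.sqrt_nonneg (1 - c ^ 2)
    have h3 := yy_le (p := p) (q := q) (R := R) (by linarith) hR x
    have h4 := yy_nonneg (p := q) (q := p) (R := R) x
    rw [← hw] at h3
    have h5 : kk (-1) p q R x c = -((YY q p R x + √(1 - c ^ 2)) / (q - 1)) := by
      unfold kk; ring
    rw [h5, neg_sq, div_pow, div_le_div_iff₀ (by nlinarith) (by nlinarith)]
    have h6 : (YY q p R x + √(1 - c ^ 2)) ^ 2 ≤ (w + 1) ^ 2 :=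
      pow_le_pow_left₀ (by positivity) (by linarith) 2
    have h7 : (q - 1) ^ 2 = (w + 1) ^ 2 * (w - 1) ^ 2 := by rw [← hw2]; ring
    rw [h7, one_mul]
    exact mul_le_mul_of_nonneg_right h6 (sq_nonneg _)
  have e3 : ll (-1) p q R x c ^ 2 ≤ 1 / (s - 1) ^ 2 := by
    have h1 : √(1 - x ^ 2) ≤ 1 := by
      apply sqrt_le_one'; nlinarith [sq_nonneg x]
    have h2 := Real.sqrt_nonneg (1 - x ^ 2)
    have h3 := yy_le (p := q) (q := p) (R := R) (by linarith) (by rw [hR]; ring) c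
    have h4 := yy_nonneg (p := p) (q := q) (R := R) c
    rw [← hs] at h3
    have h5 : ll (-1) p q R x c = -((YY p q R c + √(1 - x ^ 2)) / (p - 1)) := by
      unfold ll; ring
    rw [h5, neg_sq, div_pow, div_le_div_iff₀ (by nlinarith) (by nlinarith)]
    have h6 : (YY p q R c + √(1 - x ^ 2)) ^ 2 ≤ (s + 1) ^ 2 :=
      pow_le_pow_left₀ (by positivity) (by linarith) 2
    have h7 : (p - 1) ^ 2 = (s + 1) ^ 2 * (s - 1) ^ 2 := by rw [← hs2]; ring
    rw [h7, one_mul]
    exact mul_le_mul_of_nonneg_right h6 (sq_nonneg _)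
  linarith

/-- left edge -/
lemma edge_left {η c : ℝ} (hc : c ∈ Icc (0 : ℝ) 1)
    (hη : η ≤ 1 - 1 / (√p - 1) ^ 2 - 1 / (√q - 1) ^ 2 - 4 * q / (p * (q - 1) ^ 2))
    (hη1 : 1 / 3 < (√p - 1) ^ 2 * η) : F1 (-1) p q R (xl p q R) c < 0 := by
  have hx : xl p q R ∈ Icc (xl p q R) 0 := ⟨le_rfl, (xl_neg hp hpq hR hR0).le⟩
  have hHs := hh_sq_ge hp hpq hR hR0 hx hc hη
  have hid := xl_id hp hpq hR hR0
  have hY' : YY q p R (xl p q R) = 0 := by
    have h := xx_id' (p := p) (q := q) (R := R) (by linarith) (xl p q R)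
    have h1 : (p - 1) * (2 * R - p * XX q p R (xl p q R)) = 0 := by rw [h, hid]; ring
    have h2 := (mul_eq_zero.1 h1).resolve_left (by linarith)
    unfold YY
    rw [h2, mul_zero, Real.sqrt_zero]
  set s := √p with hs
  have hs2 : s ^ 2 = p := Real.sq_sqrt (by linarith)
  have hs1 : 1 < s := by
    rw [hs]; exact Real.lt_sqrt_of_sq_lt (by linarith)
  have hsa : √(1 - xl p q R ^ 2) ≤ 1 := by
    apply sqrt_le_one'; nlinarith [sq_nonneg (xl p q R)]
  have hsa0 := Real.sqrt_nonneg (1 - xl p q R ^ 2)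
  have hsb0 := Real.sqrt_nonneg (1 - c ^ 2)
  have hsb2 : √(1 - c ^ 2) ^ 2 = 1 - c ^ 2 := Real.sq_sqrt (by nlinarith [hc.1, hc.2])
  have h3 := yy_le (p := q) (q := p) (R := R) (by linarith) (by rw [hR]; ring) c
  have h4 := yy_nonneg (p := p) (q := q) (R := R) c
  rw [← hs] at h3
  have hH0 : 0 ≤ HH (-1) p q R (xl p q R) c := hh_nonneg
  have hη0 : 0 < η := by
    by_contra hcon
    have : (s - 1) ^ 2 * η ≤ 0 := mul_nonpos_of_nonneg_of_nonpos (sq_nonneg _) (by linarith)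
    linarith
  have hH2 : η ≤ HH (-1) p q R (xl p q R) c ^ 2 := by
    unfold HH
    rw [Real.sq_sqrt (by linarith)]
    linarith
  set H := HH (-1) p q R (xl p q R) c with hH
  set Y := YY p q R c with hY
  set a := √(1 - xl p q R ^ 2) with ha
  set b := √(1 - c ^ 2) with hb
  have hpR := p_lt hp hpq hR hR0
  -- the main inequality
  have key : b * (Y + a) < (p - 1) * (2 - c) * H := by
    have k1 : b * (Y + a) ≤ b * (s + 1) := mul_le_mul_of_nonneg_left (by linarith) hsb0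
    have k2 : b * (s + 1) < (p - 1) * (2 - c) * H := by
      apply lt_of_pow_lt_pow_left₀ 2 (mul_nonneg (mul_nonneg (by linarith) (by linarith [hc.2])) hH0)
      have k3 : (b * (s + 1)) ^ 2 ≤ (s + 1) ^ 2 * ((2 - c) ^ 2 / 3) := by
        rw [mul_pow, hsb2, mul_comm]
        apply mul_le_mul_of_nonneg_left _ (sq_nonneg _)
        nlinarith [sq_nonneg (2 * c - 1)]
      have k4 : ((p - 1) * (2 - c) * H) ^ 2 = (s + 1) ^ 2 * ((2 - c) ^ 2 * ((s - 1) ^ 2 * H ^ 2)) := by
        rw [← hs2]; ring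
      rw [k4]
      refine k3.trans_lt (mul_lt_mul_of_pos_left ?_ (by nlinarith))
      have k5 : 1 / 3 < (s - 1) ^ 2 * H ^ 2 :=
        hη1.trans_le (mul_le_mul_of_nonneg_left hH2 (sq_nonneg _))
      have k6 : 0 < (2 - c) ^ 2 := by nlinarith [hc.2]
      nlinarith [mul_lt_mul_of_pos_left k5 k6]
    linarith
  have hg : gg p q R (xl p q R) c = (2 * R / p - c) / (q - 1) := by
    have h5 : p ≠ 0 := by linarith
    have h6 : p - 1 ≠ 0 := by linarith
    have h7 : q - 1 ≠ 0 := by linarith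
    unfold gg xl
    field_simp
    ring
  have h2R : 2 ≤ 2 * R / p := by
    rw [le_div_iff₀ (by linarith)]; linarith
  unfold F1
  have e1 : kk (-1) p q R (xl p q R) c * ll (-1) p q R (xl p q R) c =
      b * (Y + a) / ((p - 1) * (q - 1)) := by
    unfold kk ll
    rw [hY', ← hb, ← hY, ← ha]
    have h6 : p - 1 ≠ 0 := by linarith
    have h7 : q - 1 ≠ 0 := by linarith
    field_simp
    ring
  rw [e1, hg, ← hH]
  have e2 : b * (Y + a) / ((p - 1) * (q - 1)) < (p - 1) * (2 - c) * H / ((p - 1) * (q - 1)) := by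
    apply div_lt_div_of_pos_right key
    exact mul_pos (by linarith) (by linarith)
  have e3 : (p - 1) * (2 - c) * H / ((p - 1) * (q - 1)) = (2 - c) / (q - 1) * H := by
    have h6 : p - 1 ≠ 0 := by linarith
    have h7 : q - 1 ≠ 0 := by linarith
    field_simp
  have e4 : (2 - c) / (q - 1) * H ≤ (2 * R / p - c) / (q - 1) * H := by
    apply mul_le_mul_of_nonneg_right _ hH0
    apply div_le_div_of_nonneg_right _ (by linarith)
    linarith
  linarith

/-- right edge -/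
lemma edge_right {c : ℝ} (hc : c ∈ Icc (0 : ℝ) 1) : 0 < F1 (-1) p q R 0 c := by
  have hpR := p_lt hp hpq hR hR0
  set Z := R - (p - 1) * c with hZ
  have hZ0 : 0 < Z := by nlinarith [hc.2]
  have hZR : Z ≤ R := by
    rw [hZ]
    have : 0 ≤ (p - 1) * c := mul_nonneg (by linarith) hc.1
    linarith
  have hsb0 := Real.sqrt_nonneg (1 - c ^ 2)
  have hH1 : HH (-1) p q R 0 c ≤ 1 := hh_le_one
  have hH0 : 0 ≤ HH (-1) p q R 0 c := hh_nonneg
  set t := √(p - 2) with ht
  set w := √(q - 2) with hw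
  have ht2 : t ^ 2 = p - 2 := Real.sq_sqrt (by linarith)
  have hw2 : w ^ 2 = q - 2 := Real.sq_sqrt (by linarith)
  have ht1 : 1 < t := by
    rw [ht]; exact Real.lt_sqrt_of_sq_lt (by linarith)
  have hw1 : 1 < w := by
    rw [hw]; exact Real.lt_sqrt_of_sq_lt (by linarith)
  have hq1 : q - 1 ≠ 0 := by linarith
  have hp1 : p - 1 ≠ 0 := by linarith
  have hY' : YY q p R 0 = R * t / (p - 1) := by
    have h1 : XX q p R 0 * (2 * R - p * XX q p R 0) = (R * t / (p - 1)) ^ 2 := by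
      unfold XX
      rw [div_pow, mul_pow, ht2]
      field_simp
      ring
    unfold YY
    rw [h1, Real.sqrt_sq (div_nonneg (mul_nonneg hR0.le (by linarith)) (by linarith))]
  have hY : Z * w / (q - 1) ≤ YY p q R c := by
    unfold YY
    apply Real.le_sqrt_of_sq_le
    have h1 : XX p q R c * (2 * R - q * XX p q R c) =
        Z * (2 * R * (q - 1) - q * Z) / (q - 1) ^ 2 := by
      unfold XX
      rw [← hZ]
      field_simp
    rw [h1, div_pow, mul_pow, hw2]
    apply div_le_div_of_nonneg_right _ (sq_nonneg _)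
    nlinarith [mul_nonneg hZ0.le (sub_nonneg.2 hZR)]
  have hRw : t * (q - 1) ≤ R * w := by
    apply le_of_sq_le_sq _ (mul_nonneg hR0.le (by linarith))
    rw [mul_pow, mul_pow, ht2, hw2, hR]
    nlinarith
  have key : Z < YY q p R 0 * (YY p q R c + 1) := by
    have k1 : YY q p R 0 * (Z * w / (q - 1) + 1) ≤ YY q p R 0 * (YY p q R c + 1) :=
      mul_le_mul_of_nonneg_left (by linarith) (yy_nonneg _)
    refine lt_of_lt_of_le ?_ k1
    rw [hY']
    have k2 : R * t / (p - 1) * (Z * w / (q - 1) + 1) =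
        (R * t * (Z * w) + R * t * (q - 1)) / ((p - 1) * (q - 1)) := by
      field_simp
    rw [k2, lt_div_iff₀ (mul_pos (by linarith) (by linarith))]
    have k3 : Z * t * (q - 1) ≤ R * t * (q - 1) := by
      apply mul_le_mul_of_nonneg_right _ (by linarith)
      exact mul_le_mul_of_nonneg_right hZR (by linarith)
    have k4 : Z * t * (t * (q - 1)) ≤ Z * t * (R * w) :=
      mul_le_mul_of_nonneg_left hRw (mul_nonneg hZ0.le (by linarith))
    have k5 : Z * (q - 1) * (p - 1) < Z * (q - 1) * (t ^ 2 + t) := by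
      apply mul_lt_mul_of_pos_left _ (mul_pos hZ0 (by linarith))
      rw [ht2]; linarith
    nlinarith
  have hg : gg p q R 0 c = Z / ((p - 1) * (q - 1)) := by
    unfold gg
    rw [hZ, mul_zero, sub_zero]
  unfold F1
  have e1 : kk (-1) p q R 0 c * ll (-1) p q R 0 c =
      (YY q p R 0 + √(1 - c ^ 2)) * (YY p q R c + 1) / ((p - 1) * (q - 1)) := by
    unfold kk ll
    rw [show (1 : ℝ) - 0 ^ 2 = 1 by norm_num, Real.sqrt_one]
    field_simp
    ring
  rw [e1, hg]
  have e2 : Z / ((p - 1) * (q - 1)) * HH (-1) p q R 0 c ≤ Z / ((p - 1) * (q - 1)) := by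
    have : 0 ≤ Z / ((p - 1) * (q - 1)) :=
      div_nonneg hZ0.le (mul_nonneg (by linarith) (by linarith))
    nlinarith
  have e3 : Z / ((p - 1) * (q - 1)) < (YY q p R 0 + √(1 - c ^ 2)) * (YY p q R c + 1) /
      ((p - 1) * (q - 1)) := by
    apply div_lt_div_of_pos_right _ (mul_pos (by linarith) (by linarith))
    have h1 := yy_nonneg (p := p) (q := q) (R := R) c
    nlinarith [mul_nonneg hsb0 (by linarith : 0 ≤ YY p q R c + 1)]
  linarith

/-- bottom edge -/
lemma edge_bot {x : ℝ} (hx : x ∈ Icc (xl p q R) 0) : 0 < F2 (-1) p q R x 0 := by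
  have h0 : (0 : ℝ) ∈ Icc (0 : ℝ) 1 := ⟨le_rfl, zero_le_one⟩
  have hg := gg_pos hp hpq hR hR0 hx h0
  have hH0 : 0 ≤ HH (-1) p q R x 0 := hh_nonneg
  have hsa0 := Real.sqrt_nonneg (1 - x ^ 2)
  have hY : 0 < YY p q R 0 :=
    Real.sqrt_pos.2 (mul_pos (xc_pos hp hpq hR hR0 h0) (xc_pos' hp hpq hR hR0 h0))
  have hY' := yy_nonneg (p := q) (q := p) (R := R) x
  have h1 : 0 < √(1 - x ^ 2) - ll (-1) p q R x 0 := by
    have : √(1 - x ^ 2) - ll (-1) p q R x 0 = √(1 - x ^ 2) +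
        (YY p q R 0 + √(1 - x ^ 2)) / (p - 1) := by
      unfold ll; ring
    rw [this]
    have : 0 < (YY p q R 0 + √(1 - x ^ 2)) / (p - 1) := div_pos (by linarith) (by linarith)
    linarith
  have h2 : 0 < √(1 - 0 ^ 2) - kk (-1) p q R x 0 := by
    have : √(1 - 0 ^ 2) - kk (-1) p q R x 0 = √(1 - 0 ^ 2) +
        (YY q p R x + √(1 - 0 ^ 2)) / (q - 1) := by
      unfold kk; ring
    rw [this, show (1 : ℝ) - 0 ^ 2 = 1 by norm_num, Real.sqrt_one]
    have : 0 ≤ (YY q p R x + 1) / (q - 1) := div_nonneg (by linarith) (by linarith)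
    linarith
  unfold F2
  have h3 : HH (-1) p q R x 0 * (x + 0 - gg p q R x 0) ≤ 0 :=
    mul_nonpos_of_nonneg_of_nonpos hH0 (by linarith [hx.2])
  have := mul_pos h1 h2
  linarith

/-- top edge -/
lemma edge_top {x y h0 : ℝ} (hx : x ∈ Icc (xl p q R) 0) (hy : YY p q R 1 ≤ y) (hh0 : 0 ≤ h0)
    (hh : h0 ≤ HH (-1) p q R x 1)
    (hc : (p + y) ^ 2 * (p * q - 1) < h0 ^ 2 * (p - 1) ^ 2 * (p * (q * (q - p) + 1))) :
    F2 (-1) p q R x 1 < 0 := by
  have hRq := R_lt hp hpq hR hR0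
  have hq1 : q - 1 ≠ 0 := by linarith
  have hp1 : p - 1 ≠ 0 := by linarith
  have hsa : √(1 - x ^ 2) ≤ 1 := by
    apply sqrt_le_one'; nlinarith [sq_nonneg x]
  have hsa0 := Real.sqrt_nonneg (1 - x ^ 2)
  have hY0 := yy_nonneg (p := p) (q := q) (R := R) 1
  have hY'0 := yy_nonneg (p := q) (q := p) (R := R) x
  have hxi0 := xi_nonneg hp hpq hR hR0 hx
  have hX0 := xx_nonneg hp hpq hR hR0 hx
  set ξ := 2 * R - p * XX q p R x with hξ
  have hid : (p - 1) * ξ = (p - 2) * R + p * (q - 1) * x :=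
    xx_id' (p := p) (q := q) (R := R) (by linarith) x
  have hY'2 : p * YY q p R x ^ 2 = (2 * R - ξ) * ξ := by
    unfold YY
    rw [Real.sq_sqrt (mul_nonneg hX0 hxi0)]
    have h5 : p * XX q p R x = 2 * R - ξ := by rw [hξ]; ring
    linear_combination ξ * h5
  set m := √(p * (q ^ 2 - R ^ 2)) with hm
  have hmp : 0 < p * (q ^ 2 - R ^ 2) := mul_pos (by linarith) (by nlinarith)
  have hm2 : m ^ 2 = p * (q ^ 2 - R ^ 2) := Real.sq_sqrt hmp.le
  have hm0 : 0 < m := Real.sqrt_pos.2 hmp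
  have hd : 0 < q - R + ξ := by linarith
  have k1 : YY q p R x * m ≤ R * (q - R + ξ) := by
    apply le_of_sq_le_sq _ (mul_nonneg hR0.le hd.le)
    have : (YY q p R x * m) ^ 2 = (2 * R - ξ) * ξ * (q ^ 2 - R ^ 2) := by
      rw [mul_pow, hm2]
      linear_combination (q ^ 2 - R ^ 2) * hY'2
    rw [this]
    nlinarith [sq_nonneg (R * (q - R) - q * ξ)]
  have k2 : (p + y) * R < h0 * (p - 1) * m := by
    apply lt_of_pow_lt_pow_left₀ 2 (mul_nonneg (mul_nonneg hh0 (by linarith)) hm0.le)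
    have e1 : ((p + y) * R) ^ 2 = (p + y) ^ 2 * (p * q - 1) := by rw [mul_pow, hR]
    have e2 : (h0 * (p - 1) * m) ^ 2 = h0 ^ 2 * (p - 1) ^ 2 * (p * (q * (q - p) + 1)) := by
      rw [mul_pow, mul_pow, hm2, hR]
      ring
    rw [e1, e2]
    exact hc
  have key : (p * √(1 - x ^ 2) + YY p q R 1) * YY q p R x <
      HH (-1) p q R x 1 * ((p - 1) * (q - R + ξ)) := by
    have k3 : (p * √(1 - x ^ 2) + YY p q R 1) * (YY q p R x * m) ≤
        (p + y) * (R * (q - R + ξ)) := by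
      apply mul_le_mul _ k1 (mul_nonneg hY'0 hm0.le) (by linarith)
      nlinarith
    have k4 : (p + y) * (R * (q - R + ξ)) < h0 * (p - 1) * m * (q - R + ξ) := by
      nlinarith [mul_lt_mul_of_pos_right k2 hd]
    have k5 : h0 * (p - 1) * m * (q - R + ξ) ≤
        HH (-1) p q R x 1 * ((p - 1) * (q - R + ξ)) * m := by
      have : 0 ≤ (p - 1) * (q - R + ξ) * m :=
        mul_nonneg (mul_nonneg (by linarith) hd.le) hm0.le
      nlinarith [mul_le_mul_of_nonneg_right hh this]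
    have k6 : (p * √(1 - x ^ 2) + YY p q R 1) * YY q p R x * m <
        HH (-1) p q R x 1 * ((p - 1) * (q - R + ξ)) * m := by
      nlinarith
    exact lt_of_mul_lt_mul_right k6 hm0.le
  have e1 : F2 (-1) p q R x 1 * ((p - 1) * (q - 1)) =
      (p * √(1 - x ^ 2) + YY p q R 1) * YY q p R x -
        HH (-1) p q R x 1 * ((p - 1) * (q - R + ξ)) := by
    have e2 : (p - 1) * (q - R + ξ) = (p - 1) * (q - 1) * (x + 1) - (R - (q - 1) * x - (p - 1) * 1) := by
      linear_combination hid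
    rw [e2]
    unfold F2 kk ll gg
    rw [show (1 : ℝ) - 1 ^ 2 = 0 by norm_num, Real.sqrt_zero]
    field_simp
    ring
  have h9 : F2 (-1) p q R x 1 * ((p - 1) * (q - 1)) < 0 := by rw [e1]; linarith
  by_contra hcon
  have : 0 ≤ F2 (-1) p q R x 1 * ((p - 1) * (q - 1)) :=
    mul_nonneg (by linarith) (mul_nonneg (by linarith) (by linarith))
  linarith

end big

/-- the box lemma for `p ≥ 7` -/
theorem par_big (hp : 7 ≤ p) (hpq : p + 4 ≤ q) {η : ℝ}
    (hη : η ≤ 1 - 1 / (√p - 1) ^ 2 - 1 / (√q - 1) ^ 2 - 4 * q / (p * (q - 1) ^ 2))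
    (hη1 : 1 / 3 < (√p - 1) ^ 2 * η)
    (hT : ∀ R : ℝ, R ^ 2 = p * q - 1 → 0 < R → ∀ x ∈ Icc (xl p q R) 0, F2 (-1) p q R x 1 < 0) :
    Par p q := by
  have hpos : 0 < p * q - 1 := by nlinarith
  have hR : √(p * q - 1) ^ 2 = p * q - 1 := Real.sq_sqrt hpos.le
  have hR0 : 0 < √(p * q - 1) := Real.sqrt_pos.2 hpos
  have hη0 : 0 < η := by
    by_contra hcon
    have : (√p - 1) ^ 2 * η ≤ 0 := mul_nonpos_of_nonneg_of_nonpos (sq_nonneg _) (by linarith)
    linarith
  refine par_of_box (s := -1) (p := p) (q := q) (R := √(p * q - 1)) (x0 := xl p q (√(p * q - 1)))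
    (x1 := 0) (by linarith) (by linarith) hR (by norm_num) (xl_neg hp hpq hR hR0) ?_ ?_ ?_ ?_ ?_
    ?_ ?_
  · intro x hx
    exact ⟨x_sq hp hpq hR hR0 hx,
      mul_nonneg (xx_nonneg hp hpq hR hR0 hx) (xi_nonneg hp hpq hR hR0 hx)⟩
  · intro c hc
    exact (mul_pos (xc_pos hp hpq hR hR0 hc) (xc_pos' hp hpq hR hR0 hc)).le
  · intro x hx c hc
    have := hh_sq_ge hp hpq hR hR0 hx hc hη
    linarith
  · intro c hc
    exact edge_left hp hpq hR hR0 hc hη hη1
  · intro c hc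
    exact edge_right hp hpq hR hR0 hc
  · intro x hx
    exact edge_bot hp hpq hR hR0 hx
  · intro x hx
    exact hT _ hR hR0 x hx

end Pool.Agent.H61.ETF
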