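import Mathlib
import Pool.Agent.H61.ETF.Big

/-!
# All pairs `7 ≤ p`, `p + 4 ≤ q` of orders congruent to 3 modulo 4
-/

namespace Pool.Agent.H61.ETF

open Set

/-- lower bound for `H ^ 2` -/
noncomputable def eta (p q : ℝ) : ℝ :=
  1 - 1 / (√p - 1) ^ 2 - 1 / (√q - 1) ^ 2 - 4 * q / (p * (q - 1) ^ 2)

lemma par_C {p q : ℝ} (hp : 7 ≤ p) (hpq : p + 4 ≤ q) (h1 : 1 / 3 < (√p - 1) ^ 2 * eta p q)
    (h2 : p * q - 1 < (√p - 1) ^ 2 * eta p q * (q * (q - p) + 1)) : Par p q := by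
  refine par_big hp hpq (η := eta p q) le_rfl h1 ?_
  intro R hR hR0 x hx
  have hη0 : 0 ≤ eta p q := by
    by_contra hcon
    have : (√p - 1) ^ 2 * eta p q ≤ 0 :=
      mul_nonpos_of_nonneg_of_nonpos (sq_nonneg _) (by linarith)
    linarith
  have hone : (1 : ℝ) ∈ Icc (0 : ℝ) 1 := ⟨zero_le_one, le_rfl⟩
  have hH := hh_sq_ge hp hpq hR hR0 hx hone (η := eta p q) le_rfl
  refine edge_top hp hpq hR hR0 (y := √p) (h0 := √(eta p q)) hx
    (yy_le (p := q) (q := p) (R := R) (by linarith) (by rw [hR]; ring) 1) (Real.sqrt_nonneg _)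
    (Real.sqrt_le_sqrt (by linarith)) ?_
  rw [Real.sq_sqrt hη0]
  set s := √p with hs
  have hs2 : s ^ 2 = p := Real.sq_sqrt (by linarith)
  have hs1 : 1 < s := by
    rw [hs]; exact Real.lt_sqrt_of_sq_lt (by linarith)
  have e1 : (p + s) ^ 2 * (p * q - 1) = p * (s + 1) ^ 2 * (p * q - 1) := by
    have : (p + s) ^ 2 = p * (s + 1) ^ 2 := by rw [← hs2]; ring
    rw [this]
  have e2 : eta p q * (p - 1) ^ 2 * (p * (q * (q - p) + 1)) =
      p * (s + 1) ^ 2 * ((s - 1) ^ 2 * eta p q * (q * (q - p) + 1)) := by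
    have : (p - 1) ^ 2 = (s + 1) ^ 2 * (s - 1) ^ 2 := by rw [← hs2]; ring
    rw [this]; ring
  rw [e1, e2]
  exact mul_lt_mul_of_pos_left h2 (mul_pos (by linarith) (by nlinarith))

/-- `p ≥ 11` -/
lemma par_11 {p q : ℝ} (hp : 11 ≤ p) (hpq : p + 4 ≤ q) : Par p q := by
  have hs2 : √p ^ 2 = p := Real.sq_sqrt (by linarith)
  have hw2 : √q ^ 2 = q := Real.sq_sqrt (by linarith)
  have hs1 : 3.3166 < √p := Real.lt_sqrt_of_sq_lt (by norm_num; linarith)
  have hsw : √p ≤ √q := Real.sqrt_le_sqrt (by linarith)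
  set s := √p with hs
  set w := √q with hw
  have k1 : (s - 1) ^ 2 * (1 / (s - 1) ^ 2) = 1 := by
    rw [mul_one_div, div_self]
    have : 0 < s - 1 := by linarith
    positivity
  have k2 : (s - 1) ^ 2 * (1 / (w - 1) ^ 2) ≤ 1 := by
    rw [mul_one_div, div_le_one (by have : 0 < w - 1 := by linarith
                                    positivity)]
    exact pow_le_pow_left₀ (by linarith) (by linarith) 2
  have k3 : (s - 1) ^ 2 * (4 * q / (p * (q - 1) ^ 2)) ≤ 4 / p := by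
    rw [← mul_div_assoc, div_le_div_iff₀ (by have : 0 < q - 1 := by linarith
                                             have : 0 < p := by linarith
                                             positivity) (by linarith)]
    have h1 : (s - 1) ^ 2 ≤ (w - 1) ^ 2 := pow_le_pow_left₀ (by linarith) (by linarith) 2
    have h2 : (q - 1) ^ 2 = (w - 1) ^ 2 * (w + 1) ^ 2 := by rw [← hw2]; ring
    have h3 : q ≤ (w + 1) ^ 2 := by nlinarith
    have h4 : (s - 1) ^ 2 * q ≤ (q - 1) ^ 2 := by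
      rw [h2]
      exact mul_le_mul h1 h3 (by linarith) (sq_nonneg _)
    have h5 : 0 ≤ 4 * p := by linarith
    nlinarith [mul_le_mul_of_nonneg_left h4 h5]
  have k4 : 4 / p ≤ 4 / 11 := div_le_div_of_nonneg_left (by norm_num) (by norm_num) hp
  have key : p / 4 < (s - 1) ^ 2 * eta p q := by
    have e : (s - 1) ^ 2 * eta p q = (s - 1) ^ 2 - (s - 1) ^ 2 * (1 / (s - 1) ^ 2) -
        (s - 1) ^ 2 * (1 / (w - 1) ^ 2) - (s - 1) ^ 2 * (4 * q / (p * (q - 1) ^ 2)) := by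
      unfold eta
      rw [← hs, ← hw]
      ring
    rw [e]
    nlinarith
  refine par_C (by linarith) hpq (by rw [← hs]; linarith) ?_
  rw [← hs]
  have h1 : 4 * q + 1 ≤ q * (q - p) + 1 := by nlinarith
  have h2 : p / 4 * (4 * q + 1) ≤ (s - 1) ^ 2 * eta p q * (q * (q - p) + 1) :=
    mul_le_mul key.le h1 (by linarith) (by linarith)
  linarith

/-- `p = 7`, `q ≥ 15` -/
lemma par_7_15 {q : ℝ} (hq : 15 ≤ q) : Par 7 q := by
  have hs2 : √(7 : ℝ) ^ 2 = 7 := Real.sq_sqrt (by norm_num)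
  have hw2 : √q ^ 2 = q := Real.sq_sqrt (by linarith)
  have hs1 : 2.6457 < √(7 : ℝ) := Real.lt_sqrt_of_sq_lt (by norm_num)
  have hs3 : √(7 : ℝ) < 2.6458 := (Real.sqrt_lt' (by norm_num)).2 (by norm_num)
  have hw1 : 3.872 < √q := Real.lt_sqrt_of_sq_lt (by norm_num; linarith)
  set s := √(7 : ℝ) with hs
  set w := √q with hw
  have k1 : (s - 1) ^ 2 * (1 / (s - 1) ^ 2) = 1 := by
    rw [mul_one_div, div_self]
    have : 0 < s - 1 := by linarith
    positivity
  have k0 : (s - 1) ^ 2 ≤ 2.7087 := by nlinarith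
  have k0' : 2.7083 ≤ (s - 1) ^ 2 := by nlinarith
  have k2 : (s - 1) ^ 2 * (1 / (w - 1) ^ 2) ≤ 0.33 := by
    rw [mul_one_div, div_le_iff₀ (by have : 0 < w - 1 := by linarith
                                     positivity)]
    nlinarith
  have k3 : (s - 1) ^ 2 * (4 * q / (7 * (q - 1) ^ 2)) ≤ 0.12 := by
    have h1 : 4 * q / (7 * (q - 1) ^ 2) ≤ 60 / 1372 := by
      rw [div_le_div_iff₀ (by nlinarith) (by norm_num)]
      nlinarith
    have h2 : 0 ≤ 4 * q / (7 * (q - 1) ^ 2) := by positivity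
    calc (s - 1) ^ 2 * (4 * q / (7 * (q - 1) ^ 2)) ≤ 2.7087 * (60 / 1372) :=
          mul_le_mul k0 h1 h2 (by norm_num)
      _ ≤ 0.12 := by norm_num
  have key : 1 < (s - 1) ^ 2 * eta 7 q := by
    have e : (s - 1) ^ 2 * eta 7 q = (s - 1) ^ 2 - (s - 1) ^ 2 * (1 / (s - 1) ^ 2) -
        (s - 1) ^ 2 * (1 / (w - 1) ^ 2) - (s - 1) ^ 2 * (4 * q / (7 * (q - 1) ^ 2)) := by
      unfold eta
      rw [← hs, ← hw]
      ring
    rw [e]
    linarith
  refine par_C le_rfl (by linarith) (by rw [← hs]; linarith) ?_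
  rw [← hs]
  have h2 : 1 * (q * (q - 7) + 1) < (s - 1) ^ 2 * eta 7 q * (q * (q - 7) + 1) :=
    mul_lt_mul_of_pos_right key (by nlinarith)
  nlinarith

/-- `p = 7`, `q = 11` -/
lemma par_7_11 : Par 7 11 := by
  have hs2 : √(7 : ℝ) ^ 2 = 7 := Real.sq_sqrt (by norm_num)
  have hw2 : √(11 : ℝ) ^ 2 = 11 := Real.sq_sqrt (by norm_num)
  have hs1 : 2.6457 < √(7 : ℝ) := Real.lt_sqrt_of_sq_lt (by norm_num)
  have hs3 : √(7 : ℝ) < 2.6458 := (Real.sqrt_lt' (by norm_num)).2 (by norm_num)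
  have hw1 : 3.3166 < √(11 : ℝ) := Real.lt_sqrt_of_sq_lt (by norm_num)
  refine par_big (p := 7) (q := 11) (η := 0.3) le_rfl (by norm_num) ?_ ?_ ?_
  · have e1 : 1 / (√(7 : ℝ) - 1) ^ 2 ≤ 0.37 := by
      rw [div_le_iff₀ (by nlinarith)]
      nlinarith
    have e2 : 1 / (√(11 : ℝ) - 1) ^ 2 ≤ 0.19 := by
      rw [div_le_iff₀ (by nlinarith)]
      nlinarith
    norm_num at e1 e2 ⊢
    linarith
  · nlinarith
  · intro R hR hR0 x hx
    have hR2 : R ^ 2 = 76 := by rw [hR]; norm_num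
    have hR3 : R < 8.718 := by nlinarith
    have hR4 : 8.7177 < R := by nlinarith
    have hY : YY 7 11 R 1 ≤ 1.99 := by
      unfold YY XX
      rw [Real.sqrt_le_iff]
      refine ⟨by norm_num, ?_⟩
      nlinarith
    have hY0 := yy_nonneg (p := 7) (q := 11) (R := R) 1
    have hY' := yy_le (p := 7) (q := 11) (R := R) (by norm_num) (by rw [hR2]; norm_num) x
    have hY'0 := yy_nonneg (p := 11) (q := 7) (R := R) x
    have hone : (1 : ℝ) ∈ Icc (0 : ℝ) 1 := ⟨zero_le_one, le_rfl⟩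
    have hg0 := gg_pos (p := 7) (q := 11) le_rfl (by norm_num) hR hR0 hx hone
    have hxl := xl_id (p := 7) (q := 11) le_rfl (by norm_num) hR hR0
    have hg : gg 7 11 R x 1 ≤ 0.15 := by
      unfold gg
      rw [div_le_iff₀ (by norm_num)]
      nlinarith [hx.1]
    have hk : kk (-1) 7 11 R x 1 ^ 2 ≤ 0.11 := by
      have : kk (-1) 7 11 R x 1 = -(YY 11 7 R x / 10) := by
        unfold kk
        rw [show (1 : ℝ) - 1 ^ 2 = 0 by norm_num, Real.sqrt_zero]
        ring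
      rw [this]
      nlinarith
    have hl : ll (-1) 7 11 R x 1 ^ 2 ≤ 0.2484 := by
      have h1 : √(1 - x ^ 2) ≤ 1 := sqrt_le_one' (by nlinarith [sq_nonneg x])
      have h2 := Real.sqrt_nonneg (1 - x ^ 2)
      have : ll (-1) 7 11 R x 1 = -((YY 7 11 R 1 + √(1 - x ^ 2)) / 6) := by
        unfold ll
        ring
      rw [this]
      have h3 : (YY 7 11 R 1 + √(1 - x ^ 2)) ^ 2 ≤ 2.99 ^ 2 :=
        pow_le_pow_left₀ (by linarith) (by linarith) 2
      nlinarith
    refine edge_top (p := 7) (q := 11) le_rfl (by norm_num) hR hR0 (y := 1.99) (h0 := √0.6) hx hY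
      (Real.sqrt_nonneg _) (Real.sqrt_le_sqrt (by nlinarith)) ?_
    rw [Real.sq_sqrt (by norm_num)]
    norm_num

/-- all orders `7 ≤ p < q` congruent to 3 modulo 4 -/
theorem par_ge_seven {p q : ℕ} (hp : 7 ≤ p) (hpq : p < q) (hp4 : p % 4 = 3) (hq4 : q % 4 = 3) :
    Par p q := by
  have h1 : p + 4 ≤ q := by omega
  have h1' : (p : ℝ) + 4 ≤ q := by exact_mod_cast h1
  rcases Nat.lt_or_ge p 11 with h | h
  · have h2 : p = 7 := by omega
    subst h2
    rcases Nat.lt_or_ge q 15 with h3 | h3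
    · have h4 : q = 11 := by omega
      subst h4
      exact_mod_cast par_7_11
    · exact_mod_cast par_7_15 (q := q) (by exact_mod_cast h3)
  · exact par_11 (by exact_mod_cast h) h1'

end Pool.Agent.H61.ETF
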