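import Mathlib
import Pool.Agent.H61.ETF.Big

/-!
# Solutions of the system for `p = 3`, `q ≥ 11`
-/

namespace Pool.Agent.H61.ETF

open Set

section three

variable {q R z : ℝ}

lemma xx_three (x : ℝ) : XX q 3 R x = (R - (q - 1) * x) / 2 := by
  unfold XX
  norm_num

variable (hq : 11 ≤ q) (hR : R ^ 2 = 3 * q - 1) (hR0 : 0 < R)

include hq hR hR0

lemma R3_ge : 5.65 < R := by nlinarith

lemma R3_le : R ^ 2 ≤ 0.32 * (q - 1) ^ 2 := by nlinarith

lemma R3_lt : R ≤ 0.57 * (q - 1) := by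
  apply le_of_sq_le_sq _ (by linarith)
  have := R3_le hq hR hR0
  nlinarith

lemma R3_ltq : R < q := by
  have := R3_lt hq hR hR0
  linarith

lemma x3_le {x : ℝ} (hz : z ≤ 0.9) (hx : x ∈ Icc 0 (z * R / (q - 1))) :
    0 ≤ x ∧ (q - 1) * x ≤ z * R ∧ (q - 1) * x ≤ 0.9 * R ∧ x ≤ 0.52 := by
  have h1 : (q - 1) * x ≤ z * R := by
    have := mul_le_mul_of_nonneg_left hx.2 (by linarith : 0 ≤ q - 1)
    rwa [mul_div_cancel₀ _ (by linarith : q - 1 ≠ 0)] at this
  have h2 : z * R ≤ 0.9 * R := mul_le_mul_of_nonneg_right hz hR0.le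
  refine ⟨hx.1, h1, h1.trans h2, ?_⟩
  have h3 := R3_lt hq hR hR0
  have h4 : (q - 1) * x ≤ (q - 1) * 0.52 := by nlinarith
  exact le_of_mul_le_mul_left h4 (by linarith)

lemma sa3 {x : ℝ} (hx0 : 0 ≤ x) (hx1 : x ≤ 0.52) : 0.85 ≤ √(1 - x ^ 2) ∧ √(1 - x ^ 2) ≤ 1 := by
  constructor
  · apply Real.le_sqrt_of_sq_le
    nlinarith
  · apply sqrt_le_one'
    nlinarith

lemma yy3_le (c : ℝ) : YY 3 q R c ≤ 1.7321 := by
  have h := yy_le (p := q) (q := 3) (R := R) (by linarith) (by rw [hR]; ring) c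
  refine h.trans ?_
  rw [Real.sqrt_le_iff]
  norm_num

lemma hh3 {x c : ℝ} (hz : z ≤ 0.9) (hx : x ∈ Icc 0 (z * R / (q - 1))) (hc : c ∈ Icc (0 : ℝ) 1) :
    gg 3 q R x c ^ 2 + kk 1 3 q R x c ^ 2 + ll 1 3 q R x c ^ 2 ≤ 0.44 := by
  obtain ⟨hx0, -, hx2, hx3⟩ := x3_le hq hR hR0 hz hx
  obtain ⟨ha1, ha2⟩ := sa3 hq hR hR0 hx0 hx3
  have hR1 := R3_ge hq hR hR0
  have hR2 := R3_le hq hR hR0
  have e1 : gg 3 q R x c ^ 2 ≤ 0.08 := by
    unfold gg
    rw [div_pow, div_le_iff₀ (by nlinarith)]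
    have h1 : (R - (q - 1) * x - (3 - 1) * c) ^ 2 ≤ R ^ 2 := by
      apply sq_le_sq'
      · linarith [hc.2]
      · have : 0 ≤ (q - 1) * x := mul_nonneg (by linarith) hx0
        linarith [hc.1]
    nlinarith
  have e2 : kk 1 3 q R x c ^ 2 ≤ 0.11 := by
    have h1 : √(1 - c ^ 2) ≤ 1 := sqrt_le_one' (by nlinarith [sq_nonneg c])
    have h2 := Real.sqrt_nonneg (1 - c ^ 2)
    have h3 := yy_le (p := 3) (q := q) (R := R) (by norm_num) hR x
    have h4 := yy_nonneg (p := q) (q := 3) (R := R) x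
    have h5 : √q ^ 2 = q := Real.sq_sqrt (by linarith)
    have h6 : 1 ≤ √q := Real.le_sqrt_of_sq_le (by linarith)
    unfold kk
    rw [div_pow, div_le_iff₀ (by nlinarith), one_mul]
    have h7 : (YY q 3 R x - √(1 - c ^ 2)) ^ 2 ≤ √q ^ 2 := by
      apply sq_le_sq' <;> linarith
    rw [h5] at h7
    nlinarith
  have e3 : ll 1 3 q R x c ^ 2 ≤ 0.25 := by
    have h3 := yy3_le hq hR hR0 c
    have h4 := yy_nonneg (p := 3) (q := q) (R := R) c
    unfold ll
    rw [div_pow, div_le_iff₀ (by norm_num), one_mul]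
    have h7 : (YY 3 q R c - √(1 - x ^ 2)) ^ 2 ≤ 1 ^ 2 := by
      apply sq_le_sq' <;> linarith
    linarith
  linarith

lemma hh3' {x c : ℝ} (hz : z ≤ 0.9) (hx : x ∈ Icc 0 (z * R / (q - 1))) (hc : c ∈ Icc (0 : ℝ) 1) :
    0.74 ≤ HH 1 3 q R x c := by
  have := hh3 hq hR hR0 hz hx hc
  unfold HH
  apply Real.le_sqrt_of_sq_le
  norm_num at this ⊢
  linarith

/-- the box lemma for `p = 3` -/
theorem par_three_of (hz0 : 0 < z) (hz : z ≤ 0.9)
    (hright : ∀ c ∈ Icc (0 : ℝ) 1, 0 < F1 1 3 q R (z * R / (q - 1)) c)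
    (hbot : ∀ x ∈ Icc 0 (z * R / (q - 1)), 0 < F2 1 3 q R x 0) : Par 3 q := by
  have hR1 := R3_ge hq hR hR0
  have hx1 : 0 < z * R / (q - 1) := div_pos (mul_pos hz0 hR0) (by linarith)
  refine par_of_box (s := 1) (p := 3) (q := q) (R := R) (x0 := 0) (x1 := z * R / (q - 1))
    (by norm_num) (by linarith) hR (by norm_num) hx1 ?_ ?_ ?_ ?_ hright hbot ?_
  · intro x hx
    obtain ⟨hx0, -, hx2, hx3⟩ := x3_le hq hR hR0 hz hx
    refine ⟨by nlinarith, ?_⟩
    rw [xx_three]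
    have : 0 ≤ (q - 1) * x := mul_nonneg (by linarith) hx0
    exact mul_nonneg (by linarith) (by linarith)
  · intro c hc
    have h1 := xx_id (p := q) (q := 3) (R := R) (by linarith) c
    have h2 := xx_id' (p := q) (q := 3) (R := R) (by linarith) c
    apply mul_nonneg
    · have : 0 ≤ (q - 1) * XX 3 q R c := by
        rw [h1]
        linarith [hc.2]
      exact nonneg_of_mul_nonneg_right this (by linarith)
    · have : 0 ≤ (q - 1) * (2 * R - q * XX 3 q R c) := by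
        rw [h2]
        have : 0 ≤ q * (3 - 1) * c := mul_nonneg (by linarith) hc.1
        nlinarith
      exact nonneg_of_mul_nonneg_right this (by linarith)
  · intro x hx c hc
    have := hh3 hq hR hR0 hz hx hc
    norm_num at this ⊢
    linarith
  · -- left edge
    intro c hc
    have h00 : (0 : ℝ) ∈ Icc 0 (z * R / (q - 1)) := ⟨le_rfl, hx1.le⟩
    have hH := hh3' hq hR hR0 hz h00 hc
    have hY := yy3_le hq hR hR0 c
    have hY0 := yy_nonneg (p := 3) (q := q) (R := R) c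
    have hb1 : √(1 - c ^ 2) ≤ 1 := sqrt_le_one' (by nlinarith [sq_nonneg c])
    have hb0 := Real.sqrt_nonneg (1 - c ^ 2)
    have hY' : YY q 3 R 0 = R / 2 := by
      unfold YY
      rw [xx_three]
      have : (R - (q - 1) * 0) / 2 * (2 * R - 3 * ((R - (q - 1) * 0) / 2)) = (R / 2) ^ 2 := by ring
      rw [this, Real.sqrt_sq (by linarith)]
    have key : (R / 2 - √(1 - c ^ 2)) * (YY 3 q R c - 1) < (R - 2 * c) * HH 1 3 q R 0 c := by
      have k1 : (R / 2 - √(1 - c ^ 2)) * (YY 3 q R c - 1) ≤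
          (R / 2 - √(1 - c ^ 2)) * 0.7321 :=
        mul_le_mul_of_nonneg_left (by linarith) (by linarith)
      have k2 : (R - 2 * c) * 0.74 ≤ (R - 2 * c) * HH 1 3 q R 0 c :=
        mul_le_mul_of_nonneg_left hH (by linarith [hc.2])
      nlinarith [hc.2]
    have e1 : F1 1 3 q R 0 c * (2 * (q - 1)) = (R / 2 - √(1 - c ^ 2)) * (YY 3 q R c - 1) -
        (R - 2 * c) * HH 1 3 q R 0 c := by
      have h5 : q - 1 ≠ 0 := by linarith
      unfold F1 kk ll gg
      rw [hY', show (1 : ℝ) - 0 ^ 2 = 1 by norm_num, Real.sqrt_one]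
      field_simp
      ring
    by_contra hcon
    have : 0 ≤ F1 1 3 q R 0 c * (2 * (q - 1)) := mul_nonneg (by linarith) (by linarith)
    linarith
  · -- top edge
    intro x hx
    have h11 : (1 : ℝ) ∈ Icc (0 : ℝ) 1 := ⟨zero_le_one, le_rfl⟩
    obtain ⟨hx0, -, hx2, hx3⟩ := x3_le hq hR hR0 hz hx
    obtain ⟨ha1, ha2⟩ := sa3 hq hR hR0 hx0 hx3
    have hH := hh3' hq hR hR0 hz hx h11
    have hY := yy3_le hq hR hR0 1
    have hY0 := yy_nonneg (p := 3) (q := q) (R := R) 1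
    have hY'0 := yy_nonneg (p := q) (q := 3) (R := R) x
    have hg : gg 3 q R x 1 < 1 := by
      unfold gg
      rw [div_lt_one (by nlinarith)]
      have h6 := R3_lt hq hR hR0
      have : 0 ≤ (q - 1) * x := mul_nonneg (by linarith) hx0
      linarith
    have hl : 0 ≤ √(1 - x ^ 2) - ll 1 3 q R x 1 := by
      unfold ll
      have : √(1 - x ^ 2) - (1 * YY 3 q R 1 - √(1 - x ^ 2)) / (3 - 1) =
        (3 * √(1 - x ^ 2) - YY 3 q R 1) / 2 := by ring
      rw [this]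
      linarith
    have hk : √(1 - 1 ^ 2) - kk 1 3 q R x 1 ≤ 0 := by
      unfold kk
      rw [show (1 : ℝ) - 1 ^ 2 = 0 by norm_num, Real.sqrt_zero]
      have : 0 ≤ (1 * YY q 3 R x - 0) / (q - 1) := div_nonneg (by linarith) (by linarith)
      linarith
    unfold F2
    have h1 := mul_nonpos_of_nonneg_of_nonpos hl hk
    have h2 : 0 < HH 1 3 q R x 1 * (x + 1 - gg 3 q R x 1) :=
      mul_pos (by linarith) (by linarith)
    linarith

end three

end Pool.Agent.H61.ETF
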