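import Mathlib
import Pool.Agent.H61.ETF.Three

/-!
# All pairs `3`, `q ≥ 11` of orders congruent to 3 modulo 4
-/

namespace Pool.Agent.H61.ETF

open Set

section

variable {q R z : ℝ}

lemma yy3_ge (hq : 11 ≤ q) {t c : ℝ}
    (h : t ^ 2 * (q - 1) ^ 2 ≤ (R - 2 * c) * ((q - 2) * R + 2 * q * c)) : t ≤ YY 3 q R c := by
  have h1 : q - 1 ≠ 0 := by linarith
  have h2 : 0 < (q - 1) ^ 2 := by
    have : 0 < q - 1 := by linarith
    positivity
  unfold YY
  apply Real.le_sqrt_of_sq_le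
  have e : XX 3 q R c * (2 * R - q * XX 3 q R c) =
      (R - 2 * c) * ((q - 2) * R + 2 * q * c) / (q - 1) ^ 2 := by
    unfold XX
    field_simp
    ring
  rw [e, le_div_iff₀ h2]
  exact h

variable (hq : 11 ≤ q) (hR : R ^ 2 = 3 * q - 1) (hR0 : 0 < R)

include hq hR hR0

lemma yy3_ge1 {c : ℝ} (hc : c ∈ Icc (0 : ℝ) 1) : 1.1 ≤ YY 3 q R c := by
  apply yy3_ge hq
  have h1 : (R - 2 * c) * ((q - 2) * R + 2 * q * c) =
      (q - 2) * (3 * q - 1) + 4 * c * R - 4 * q * c ^ 2 := by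
    rw [← hR]; ring
  rw [h1]
  have h2 : 0 ≤ c * R := mul_nonneg hc.1 hR0.le
  have h3 : q * c ^ 2 ≤ q * 1 := by
    apply mul_le_mul_of_nonneg_left _ (by linarith)
    nlinarith [hc.1, hc.2]
  nlinarith

lemma yyp_sq {x : ℝ} (hz : z ≤ 0.9) (hx : x ∈ Icc 0 (z * R / (q - 1))) :
    YY q 3 R x ^ 2 = (R - (q - 1) * x) * (R + 3 * ((q - 1) * x)) / 4 := by
  obtain ⟨hx0, -, hx2, hx3⟩ := x3_le hq hR hR0 hz hx
  unfold YY
  rw [xx_three, Real.sq_sqrt]
  · ring
  · have : 0 ≤ (q - 1) * x := mul_nonneg (by linarith) hx0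
    exact mul_nonneg (by linarith) (by linarith)

lemma yyp_le {x t : ℝ} (hz : z ≤ 0.9) (hx : x ∈ Icc 0 (z * R / (q - 1))) (ht : 0 < t) :
    YY q 3 R x ≤ (t * (R - (q - 1) * x) + (R + 3 * ((q - 1) * x)) / t) / 4 := by
  obtain ⟨hx0, -, hx2, hx3⟩ := x3_le hq hR hR0 hz hx
  have h0 : 0 ≤ (q - 1) * x := mul_nonneg (by linarith) hx0
  apply le_of_sq_le_sq
  · rw [yyp_sq hq hR hR0 hz hx]
    have e : ((t * (R - (q - 1) * x) + (R + 3 * ((q - 1) * x)) / t) / 4) ^ 2 =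
        ((t * (R - (q - 1) * x) - (R + 3 * ((q - 1) * x)) / t) / 4) ^ 2 +
        (R - (q - 1) * x) * (R + 3 * ((q - 1) * x)) / 4 := by
      field_simp
      ring
    rw [e]
    nlinarith [sq_nonneg ((t * (R - (q - 1) * x) - (R + 3 * ((q - 1) * x)) / t) / 4)]
  · have h1 : 0 ≤ t * (R - (q - 1) * x) := mul_nonneg ht.le (by linarith)
    have h2 : 0 ≤ (R + 3 * ((q - 1) * x)) / t := div_nonneg (by linarith) ht.le
    linarith

/-- the right edge -/
lemma right3 {κ t H1 a : ℝ} (hz0 : 0 < z) (hz : z ≤ 0.9) (hκ : κ ^ 2 ≤ (1 - z) * (1 + 3 * z) / 4)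
    (hκ1 : 1 < κ * R)
    (ht : ∀ c ∈ Icc (0 : ℝ) 1, 2 * c ≤ (1 - z) * R → t ≤ YY 3 q R c)
    (ha : √(1 - (z * R / (q - 1)) ^ 2) ≤ a) (hat : a ≤ t)
    (hH1 : ∀ c ∈ Icc (0 : ℝ) 1, 2 * c ≤ (1 - z) * R → HH 1 3 q R (z * R / (q - 1)) c ≤ H1)
    (hmain : (1 - z) * R * H1 < (κ * R - 1) * (t - a)) {c : ℝ} (hc : c ∈ Icc (0 : ℝ) 1) :
    0 < F1 1 3 q R (z * R / (q - 1)) c := by
  have hx1 : 0 < z * R / (q - 1) := div_pos (mul_pos hz0 hR0) (by linarith)
  have hxm : z * R / (q - 1) ∈ Icc 0 (z * R / (q - 1)) := ⟨hx1.le, le_rfl⟩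
  obtain ⟨hx0, -, hx2, hx3⟩ := x3_le hq hR hR0 hz hxm
  obtain ⟨ha1, ha2⟩ := sa3 hq hR hR0 hx0 hx3
  have hqx : (q - 1) * (z * R / (q - 1)) = z * R := mul_div_cancel₀ _ (by linarith)
  have hY' : κ * R ≤ YY q 3 R (z * R / (q - 1)) := by
    apply le_of_sq_le_sq _ (yy_nonneg _)
    rw [yyp_sq hq hR hR0 hz hxm, hqx, mul_pow]
    have : (R - z * R) * (R + 3 * (z * R)) / 4 = (1 - z) * (1 + 3 * z) / 4 * R ^ 2 := by ring
    rw [this]
    exact mul_le_mul_of_nonneg_right hκ (sq_nonneg _)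
  have hb1 : √(1 - c ^ 2) ≤ 1 := sqrt_le_one' (by nlinarith [sq_nonneg c])
  have hY1 := yy3_ge1 hq hR hR0 hc
  have hH0 : 0 ≤ HH 1 3 q R (z * R / (q - 1)) c := hh_nonneg
  have key : ((1 - z) * R - 2 * c) * HH 1 3 q R (z * R / (q - 1)) c <
      (YY q 3 R (z * R / (q - 1)) - √(1 - c ^ 2)) *
        (YY 3 q R c - √(1 - (z * R / (q - 1)) ^ 2)) := by
    rcases le_total (2 * c) ((1 - z) * R) with h | h
    · have k1 := hH1 c hc h
      have k2 := ht c hc h
      have k3 : ((1 - z) * R - 2 * c) * HH 1 3 q R (z * R / (q - 1)) c ≤ (1 - z) * R * H1 := by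
        apply mul_le_mul (by linarith [hc.1]) k1 hH0
        exact mul_nonneg (by linarith) hR0.le
      have k4 : (κ * R - 1) * (t - a) ≤ (YY q 3 R (z * R / (q - 1)) - √(1 - c ^ 2)) *
        (YY 3 q R c - √(1 - (z * R / (q - 1)) ^ 2)) := by
        apply mul_le_mul (by linarith) (by linarith) (by linarith) (by linarith)
      linarith
    · have k1 : ((1 - z) * R - 2 * c) * HH 1 3 q R (z * R / (q - 1)) c ≤ 0 :=
        mul_nonpos_of_nonpos_of_nonneg (by linarith) hH0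
      have k2 : 0 < (YY q 3 R (z * R / (q - 1)) - √(1 - c ^ 2)) *
        (YY 3 q R c - √(1 - (z * R / (q - 1)) ^ 2)) := mul_pos (by linarith) (by linarith)
      linarith
  have e1 : F1 1 3 q R (z * R / (q - 1)) c * (2 * (q - 1)) =
      (YY q 3 R (z * R / (q - 1)) - √(1 - c ^ 2)) *
        (YY 3 q R c - √(1 - (z * R / (q - 1)) ^ 2)) -
      ((1 - z) * R - 2 * c) * HH 1 3 q R (z * R / (q - 1)) c := by
    have h5 : q - 1 ≠ 0 := by linarith
    have hg : gg 3 q R (z * R / (q - 1)) c = ((1 - z) * R - 2 * c) / (2 * (q - 1)) := by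
      unfold gg
      rw [hqx]
      norm_num
      ring
    unfold F1
    rw [hg]
    unfold kk ll
    field_simp
    ring
  by_contra hcon
  have : F1 1 3 q R (z * R / (q - 1)) c * (2 * (q - 1)) ≤ 0 :=
    mul_nonpos_of_nonpos_of_nonneg (by linarith) (by linarith)
  linarith

/-- the bottom edge -/
lemma bot3 {t H1 σ : ℝ} (hz : z ≤ 0.9) (ht : 0 < t) {x : ℝ} (hx : x ∈ Icc 0 (z * R / (q - 1)))
    (hσ0 : 0 < σ) (hσ : σ ≤ 3 * √(1 - x ^ 2) - YY 3 q R 0) (hH1 : HH 1 3 q R x 0 ≤ H1)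
    (h0 : 0 < σ * (q - (t * R + R / t) / 4) + H1 * R)
    (h1 : 0 < σ * (q - (t * (1 - z) + (1 + 3 * z) / t) * R / 4) - H1 * ((3 * z - 1) * R)) :
    0 < F2 1 3 q R x 0 := by
  obtain ⟨hx0, hxz, hx2, hx3⟩ := x3_le hq hR hR0 hz hx
  have hu0 : 0 ≤ (q - 1) * x := mul_nonneg (by linarith) hx0
  have hY' := yyp_le hq hR hR0 hz hx ht
  have hY'q := yy_le (p := 3) (q := q) (R := R) (by norm_num) hR x
  have hqq : √q < q := by
    rw [Real.sqrt_lt' (by linarith)]
    nlinarith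
  have hH0 : 0 ≤ HH 1 3 q R x 0 := hh_nonneg
  have key : HH 1 3 q R x 0 * (3 * ((q - 1) * x) - R) <
      (3 * √(1 - x ^ 2) - YY 3 q R 0) * (q - YY q 3 R x) := by
    have k0 : 0 < q - YY q 3 R x := by linarith
    have k1 : σ * (q - YY q 3 R x) ≤ (3 * √(1 - x ^ 2) - YY 3 q R 0) * (q - YY q 3 R x) :=
      mul_le_mul_of_nonneg_right hσ k0.le
    refine lt_of_lt_of_le ?_ k1
    rcases le_total (3 * ((q - 1) * x) - R) 0 with h | h
    · have k2 : HH 1 3 q R x 0 * (3 * ((q - 1) * x) - R) ≤ 0 :=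
        mul_nonpos_of_nonneg_of_nonpos hH0 h
      have k3 := mul_pos hσ0 k0
      linarith
    · have k2 : HH 1 3 q R x 0 * (3 * ((q - 1) * x) - R) ≤ H1 * (3 * ((q - 1) * x) - R) :=
        mul_le_mul_of_nonneg_right hH1 h
      refine lt_of_le_of_lt k2 ?_
      have k3 : σ * (q - (t * (R - (q - 1) * x) + (R + 3 * ((q - 1) * x)) / t) / 4) ≤
          σ * (q - YY q 3 R x) := mul_le_mul_of_nonneg_left (by linarith) hσ0.le
      refine lt_of_lt_of_le ?_ k3
      set u := (q - 1) * x with hu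
      -- linear in `u`
      have hzR : 0 < z * R := by
        by_contra hcon
        have : z * R ≤ 0 := not_lt.1 hcon
        linarith
      have e : σ * (q - (t * (R - u) + (R + 3 * u) / t) / 4) - H1 * (3 * u - R) =
          (1 - u / (z * R)) * (σ * (q - (t * R + R / t) / 4) + H1 * R) + u / (z * R) *
          (σ * (q - (t * (1 - z) + (1 + 3 * z) / t) * R / 4) - H1 * ((3 * z - 1) * R)) := by
        have hz1 : z ≠ 0 := by
          rintro rfl
          simp at hzR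
        field_simp
        ring
      have k4 : 0 ≤ u / (z * R) := div_nonneg hu0 hzR.le
      have k5 : u / (z * R) ≤ 1 := by
        rw [div_le_one hzR]
        exact hxz
      have k6 : 0 < (1 - u / (z * R)) * (σ * (q - (t * R + R / t) / 4) + H1 * R) + u / (z * R) *
          (σ * (q - (t * (1 - z) + (1 + 3 * z) / t) * R / 4) - H1 * ((3 * z - 1) * R)) := by
        rcases eq_or_lt_of_le k4 with h6 | h6
        · rw [← h6]
          linarith
        · have k7 := mul_pos h6 h1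
          have k8 := mul_nonneg (sub_nonneg.2 k5) h0.le
          linarith
      linarith
  have e1 : F2 1 3 q R x 0 * (2 * (q - 1)) =
      (3 * √(1 - x ^ 2) - YY 3 q R 0) * (q - YY q 3 R x) -
        HH 1 3 q R x 0 * (3 * ((q - 1) * x) - R) := by
    have h5 : q - 1 ≠ 0 := by linarith
    unfold F2 kk ll gg
    rw [show (1 : ℝ) - 0 ^ 2 = 1 by norm_num, Real.sqrt_one]
    field_simp
    ring
  by_contra hcon
  have : F2 1 3 q R x 0 * (2 * (q - 1)) ≤ 0 :=
    mul_nonpos_of_nonpos_of_nonneg (by linarith) (by linarith)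
  linarith

end

/-- `p = 3`, `q ≥ 15` -/
lemma par_3_15 {q : ℝ} (hq15 : 15 ≤ q) : Par 3 q := by
  have hpos : 0 < 3 * q - 1 := by linarith
  have hR : √(3 * q - 1) ^ 2 = 3 * q - 1 := Real.sq_sqrt hpos.le
  have hR0 : 0 < √(3 * q - 1) := Real.sqrt_pos.2 hpos
  set R := √(3 * q - 1) with hRdef
  have hq : 11 ≤ q := by linarith
  have hR1 : 6.63 < R := by nlinarith
  have h0c : (0 : ℝ) ∈ Icc (0 : ℝ) 1 := ⟨le_rfl, zero_le_one⟩
  refine par_three_of (z := 0.9) hq hR hR0 (by norm_num) le_rfl ?_ ?_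
  · intro c hc
    refine right3 hq hR hR0 (κ := 0.3041) (t := 1.69) (H1 := 1) (a := 1) (by norm_num) le_rfl
      (by norm_num) (by linarith) ?_ (sqrt_le_one' (by nlinarith [sq_nonneg (0.9 * R / (q - 1))]))
      (by norm_num) (fun c _ _ => hh_le_one) (by nlinarith) hc
    intro c hc h
    apply yy3_ge hq
    have h1 : (R - 2 * c) * ((q - 2) * R + 2 * q * c) =
        (q - 2) * (3 * q - 1) + 4 * (c * R) - 4 * q * c ^ 2 := by
      rw [← hR]; ring
    rw [h1]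
    have h2 : 0 ≤ c * R := mul_nonneg hc.1 hR0.le
    have h3 : c ≤ 0.05 * R := by linarith
    have h4 : c ^ 2 ≤ 0.05 * (c * R) := by nlinarith [hc.1]
    have h5 : c * R ≤ 0.05 * (3 * q - 1) := by nlinarith [hc.1]
    have h6 : q * c ^ 2 ≤ q * (0.05 * (c * R)) := mul_le_mul_of_nonneg_left h4 (by linarith)
    rcases le_total q 20 with h7 | h7
    · nlinarith [mul_nonneg h2 (sub_nonneg.2 h7)]
    · nlinarith [mul_le_mul_of_nonneg_right h5 (sub_nonneg.2 h7)]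
  · intro x hx
    obtain ⟨hx0, hxz, hx2, hx3⟩ := x3_le hq hR hR0 le_rfl hx
    have hxs : x ^ 2 ≤ 0.182 := by
      have h1 : ((q - 1) * x) ^ 2 ≤ (0.9 * R) ^ 2 :=
        pow_le_pow_left₀ (mul_nonneg (by linarith) hx0) hx2 2
      have h2 : (q - 1) ^ 2 * x ^ 2 ≤ (q - 1) ^ 2 * 0.182 := by nlinarith
      exact le_of_mul_le_mul_left h2 (by nlinarith)
    have ha : 0.9044 ≤ √(1 - x ^ 2) := Real.le_sqrt_of_sq_le (by norm_num; linarith)
    have hY := yy3_le hq hR hR0 0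
    have hRq : 2.05 * R ≤ q := by
      apply le_of_sq_le_sq _ (by linarith)
      nlinarith
    refine bot3 hq hR hR0 (z := 0.9) (t := 6) (H1 := 1) (σ := 0.98) le_rfl (by norm_num) hx
      (by norm_num) (by linarith) hh_le_one ?_ ?_
    · nlinarith
    · norm_num
      linarith

/-- `p = 3`, `q = 11` -/
lemma par_3_11 : Par 3 11 := by
  have hR2 : √(32 : ℝ) ^ 2 = 32 := Real.sq_sqrt (by norm_num)
  have hR0 : 0 < √(32 : ℝ) := Real.sqrt_pos.2 (by norm_num)
  set R := √(32 : ℝ) with hRdef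
  have hR : R ^ 2 = 3 * 11 - 1 := by rw [hR2]; norm_num
  have hR1 : 5.6568 < R := by nlinarith
  have hR3 : R < 5.6569 := by nlinarith
  have h0c : (0 : ℝ) ∈ Icc (0 : ℝ) 1 := ⟨le_rfl, zero_le_one⟩
  have hzle : (0.82 : ℝ) ≤ 0.9 := by norm_num
  have hx1s : (0.82 * R / (11 - 1)) ^ 2 = 0.215168 := by
    have : (0.82 * R / (11 - 1)) ^ 2 = 0.006724 * R ^ 2 := by ring
    rw [this, hR2]; norm_num
  have hYge : ∀ c ∈ Icc (0 : ℝ) 1, 2 * c ≤ (1 - 0.82) * R → 1.697 ≤ YY 3 11 R c := by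
    intro c hc h
    apply yy3_ge le_rfl
    have h1 : (R - 2 * c) * ((11 - 2) * R + 2 * 11 * c) =
        9 * R ^ 2 + 4 * c * (R - 11 * c) := by ring
    rw [h1, hR2]
    have h2 : 0 ≤ 4 * c * (R - 11 * c) := mul_nonneg (by linarith [hc.1]) (by linarith)
    norm_num at h2 ⊢
    linarith
  refine par_three_of (q := 11) (R := R) (z := 0.82) le_rfl hR hR0 (by norm_num) hzle ?_ ?_
  · intro c hc
    have ha : √(1 - (0.82 * R / (11 - 1)) ^ 2) ≤ 0.886 := by
      rw [hx1s, Real.sqrt_le_iff]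
      norm_num
    refine right3 (q := 11) le_rfl hR hR0 (κ := 0.3945) (t := 1.697) (H1 := 0.95) (a := 0.886)
      (by norm_num) hzle (by norm_num) (by linarith) hYge ha
      (by norm_num) ?_ (by nlinarith) hc
    intro c hc h
    have h1 := hYge c hc h
    have h2 : 0.4 ≤ ll 1 3 11 R (0.82 * R / (11 - 1)) c := by
      unfold ll
      rw [le_div_iff₀ (by norm_num)]
      linarith
    unfold HH
    rw [Real.sqrt_le_iff]
    refine ⟨by norm_num, ?_⟩
    nlinarith [sq_nonneg (gg 3 11 R (0.82 * R / (11 - 1)) c),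
      sq_nonneg (kk 1 3 11 R (0.82 * R / (11 - 1)) c)]
  · intro x hx
    obtain ⟨hx0, hxz, hx2, hx3⟩ := x3_le (q := 11) le_rfl hR hR0 hzle hx
    have hxs : x ^ 2 ≤ 0.215168 := by
      rw [← hx1s]
      exact pow_le_pow_left₀ hx0 hx.2 2
    have ha : 0.8859 ≤ √(1 - x ^ 2) := Real.le_sqrt_of_sq_le (by norm_num; linarith)
    have ha1 : √(1 - x ^ 2) ≤ 1 := sqrt_le_one' (by nlinarith [sq_nonneg x])
    have hY0 := hYge 0 h0c (by linarith)
    have hY : YY 3 11 R 0 ≤ 1.6971 := by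
      unfold YY XX
      rw [Real.sqrt_le_iff]
      refine ⟨by norm_num, ?_⟩
      nlinarith
    have hH1 : HH 1 3 11 R x 0 ≤ 0.94 := by
      have h2 : 0.348 ≤ ll 1 3 11 R x 0 := by
        unfold ll
        rw [le_div_iff₀ (by norm_num)]
        linarith
      unfold HH
      rw [Real.sqrt_le_iff]
      refine ⟨by norm_num, ?_⟩
      nlinarith [sq_nonneg (gg 3 11 R x 0), sq_nonneg (kk 1 3 11 R x 0)]
    refine bot3 (q := 11) le_rfl hR hR0 (z := 0.82) (t := 4.4) (H1 := 0.94) (σ := 0.96) hzle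
      (by norm_num) hx (by norm_num) (by linarith) hH1 ?_ ?_
    · norm_num
      linarith
    · norm_num
      linarith

/-- all orders `q ≥ 11` congruent to 3 modulo 4 -/
theorem par_three {q : ℕ} (hq : 11 ≤ q) (hq4 : q % 4 = 3) : Par 3 q := by
  rcases Nat.lt_or_ge q 15 with h3 | h3
  · have h4 : q = 11 := by omega
    subst h4
    exact_mod_cast par_3_11
  · exact par_3_15 (by exact_mod_cast h3)

end Pool.Agent.H61.ETF
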