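import Mathlib
import Pool.Agent.H54.Etf.Main
import Pool.Agent.H61.ETF.BigCases
import Pool.Agent.H61.ETF.ThreeCases

/-!
# Hermitian conference matrices of order `2 p q` for two orders `p`, `q` of skew cores
-/

namespace Pool.Agent.H61.ETF

open Matrix Finset Pool.Agent.H37.Etf Pool.Agent.H54.Etf

section

variable {α : Type*} [Fintype α] [DecidableEq α]

/-- the order of a skew core is 3 modulo 4 -/
lemma core_mod {C : Matrix α α ℤ} (hC : Core (-1) C) (h3 : 3 ≤ Fintype.card α) :
    Fintype.card α % 4 = 3 := by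
  obtain ⟨i, -, j, -, k, -, hij, hik, hjk⟩ := Finset.two_lt_card.1
    (show 2 < (Finset.univ : Finset α).card by rw [Finset.card_univ]; omega)
  -- rows of the matrix `C + I`
  let H : α → α → ℤ := fun a l => C a l + if a = l then 1 else 0
  have hH : ∀ a l, H a l = 1 ∨ H a l = -1 := by
    intro a l
    by_cases h : a = l
    · subst h
      left
      simp [H, hC.diag]
    · rcases hC.off a l h with h' | h' <;> simp [H, h, h']
  have hgram : ∀ a b, ∑ l, H a l * H b l = if a = b then (Fintype.card α : ℤ) else -1 := by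
    intro a b
    have e : ∀ l, H a l * H b l = C a l * C b l + (C a l * (if b = l then 1 else 0) +
        (if a = l then 1 else 0) * C b l) + (if a = l then 1 else 0) * (if b = l then 1 else 0) := by
      intro l
      simp only [H]
      ring
    rw [sum_congr rfl (fun l _ => e l), sum_add_distrib, sum_add_distrib, sum_add_distrib,
      hC.gram a b]
    simp only [mul_ite, mul_one, mul_zero, ite_mul, one_mul, zero_mul, sum_ite_eq, mem_univ,
      if_true]
    by_cases h : a = b
    · subst h
      simp [hC.diag]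
    · have h' : b ≠ a := Ne.symm h
      rw [hC.symm a b]
      simp [h, h']
  have hsum : ∑ l, (H i l + H j l) * (H i l + H k l) = (Fintype.card α : ℤ) - 3 := by
    have e : ∀ l, (H i l + H j l) * (H i l + H k l) =
        H i l * H i l + H i l * H k l + H j l * H i l + H j l * H k l := by
      intro l; ring
    rw [sum_congr rfl (fun l _ => e l), sum_add_distrib, sum_add_distrib, sum_add_distrib,
      hgram, hgram, hgram, hgram, if_pos rfl, if_neg hik, if_neg (Ne.symm hij), if_neg hjk]
    ring
  have hdvd : (4 : ℤ) ∣ (Fintype.card α : ℤ) - 3 := by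
    rw [← hsum]
    apply Finset.dvd_sum
    intro l _
    rcases hH i l with h1 | h1 <;> rcases hH j l with h2 | h2 <;> rcases hH k l with h3 | h3 <;>
      rw [h1, h2, h3] <;> norm_num
  omega

/-- a skew core of order `n` gives a symmetric core of order `n ^ 2` -/
lemma core_sq {C : Matrix α α ℤ} (hC : Core (-1) C) :
    Core 1 (Matrix.of fun x y : α × α => C x.1 y.1 * C x.2 y.2 + (if x.1 = y.1 then 1 else 0) -
      (if x.2 = y.2 then 1 else 0)) := by
  have hcol : ∀ j, ∑ l, C l j = 0 := by
    intro j
    have h := hC.row j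
    have : ∀ l, C l j = -1 * C j l := fun l => hC.symm j l
    rw [sum_congr rfl (fun l _ => this l), ← mul_sum, h, mul_zero]
  refine ⟨?_, ?_, ?_, ?_, ?_⟩
  · rintro ⟨i, j⟩
    simp [hC.diag]
  · rintro ⟨i, j⟩ ⟨i', j'⟩ hne
    simp only [Matrix.of_apply]
    by_cases h1 : i = i'
    · subst h1
      have h2 : j ≠ j' := fun h => hne (by rw [h])
      simp [hC.diag, h2]
    · by_cases h2 : j = j'
      · subst h2
        simp [hC.diag, h1]
      · rcases hC.off i i' h1 with h3 | h3 <;> rcases hC.off j j' h2 with h4 | h4 <;>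
          simp [h1, h2, h3, h4]
  · rintro ⟨i, j⟩ ⟨i', j'⟩
    simp only [Matrix.of_apply]
    rw [hC.symm i i', hC.symm j j']
    simp only [eq_comm (a := i') (b := i), eq_comm (a := j') (b := j)]
    ring
  · rintro ⟨i, j⟩ ⟨i', j'⟩
    simp only [Matrix.of_apply]
    rw [Fintype.sum_prod_type]
    have e : ∀ a b : α, (C i a * C j b + (if i = a then 1 else 0) - (if j = b then 1 else 0)) *
        (C i' a * C j' b + (if i' = a then 1 else 0) - (if j' = b then 1 else 0)) =
        (C i a * C i' a) * (C j b * C j' b) + (C i a * (if i' = a then 1 else 0)) * C j b -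
        C i a * (C j b * (if j' = b then 1 else 0)) + (C i' a * (if i = a then 1 else 0)) * C j' b -
        C i' a * (C j' b * (if j = b then 1 else 0)) +
        (if i = a then 1 else 0) * (if i' = a then 1 else 0) * 1 -
        (if i = a then 1 else 0) * (if j' = b then 1 else 0) -
        (if i' = a then 1 else 0) * (if j = b then 1 else 0) +
        1 * ((if j = b then 1 else 0) * (if j' = b then 1 else 0)) := by
      intro a b
      ring
    have e2 : ∑ a, ∑ b, (C i a * C j b + (if i = a then 1 else 0) - (if j = b then 1 else 0)) *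
        (C i' a * C j' b + (if i' = a then 1 else 0) - (if j' = b then 1 else 0)) =
        (∑ a, C i a * C i' a) * (∑ b, C j b * C j' b) +
        (∑ a, C i a * (if i' = a then 1 else 0)) * (∑ b, C j b) -
        (∑ a, C i a) * (∑ b, C j b * (if j' = b then 1 else 0)) +
        (∑ a, C i' a * (if i = a then 1 else 0)) * (∑ b, C j' b) -
        (∑ a, C i' a) * (∑ b, C j' b * (if j = b then 1 else 0)) +
        (∑ a, (if i = a then 1 else 0) * (if i' = a then 1 else 0)) * (∑ _b : α, 1) -
        (∑ a, if i = a then 1 else 0) * (∑ b, if j' = b then 1 else 0) -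
        (∑ a, if i' = a then 1 else 0) * (∑ b, if j = b then 1 else 0) +
        (∑ _a : α, 1) * (∑ b, (if j = b then 1 else 0) * (if j' = b then 1 else 0)) := by
      simp only [Finset.sum_mul_sum, ← Finset.sum_add_distrib, ← Finset.sum_sub_distrib]
      refine sum_congr rfl fun a _ => sum_congr rfl fun b _ => ?_
      rw [e a b]
    rw [e2, hC.gram, hC.gram, hC.row, hC.row, hC.row, hC.row]
    simp only [mul_ite, mul_one, mul_zero, ite_mul, one_mul, zero_mul, sum_ite_eq, mem_univ,
      if_true, sum_const, card_univ, nsmul_eq_mul, Prod.mk.injEq, Fintype.card_prod]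
    by_cases h1 : i = i'
    · subst h1
      by_cases h2 : j = j'
      · subst h2
        simp
        ring
      · simp [h2, Ne.symm h2]
    · by_cases h2 : j = j'
      · subst h2
        simp [h1, Ne.symm h1]
        ring
      · simp [h1, Ne.symm h1, h2, Ne.symm h2]
  · rintro ⟨i, j⟩
    simp only [Matrix.of_apply]
    rw [Fintype.sum_prod_type]
    have e : ∀ a : α, ∑ b, (C i a * C j b + (if i = a then 1 else 0) -
        (if j = b then 1 else 0)) = (if i = a then 1 else 0) * (Fintype.card α : ℤ) - 1 := by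
      intro a
      rw [Finset.sum_sub_distrib, Finset.sum_add_distrib, ← Finset.mul_sum, hC.row, mul_zero,
        Finset.sum_ite_eq, if_pos (Finset.mem_univ _), Finset.sum_const, card_univ, nsmul_eq_mul]
      ring
    rw [sum_congr rfl (fun a _ => e a), Finset.sum_sub_distrib, ← Finset.sum_mul,
      Finset.sum_ite_eq, if_pos (Finset.mem_univ _), Finset.sum_const, card_univ, nsmul_eq_mul]
    ring

end

/-- the Hermitian conference matrix of order `n + 1` with core `C` -/
lemma sig_border {ι : Type*} [Fintype ι] [DecidableEq ι] {C : Matrix ι ι ℤ} (hC : Core 1 C) :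
    Sig (fromBlocks (0 : Matrix Unit Unit ℂ) (Matrix.of fun _ _ => 1) (Matrix.of fun _ _ => 1)
      (cx C)) := by
  have hH : (cx C)ᴴ = cx C := by
    have := hC.conj
    simpa using this
  have hKK : cx C * cx C = (Fintype.card ι : ℂ) • (1 : Matrix ι ι ℂ) - Jm ι := by
    have := hC.mul_self
    simpa using this
  have hrow : ∀ i, ∑ l, cx C i l = 0 := by
    intro i
    have h1 := congrFun (congrFun hC.mul_Jm i) i
    rw [Matrix.mul_apply] at h1
    simpa [Jm] using h1
  have hcol : ∀ i, ∑ l, cx C l i = 0 := by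
    intro i
    have h1 := congrFun (congrFun (hC.Jm_mul (by norm_num)) i) i
    rw [Matrix.mul_apply] at h1
    simpa [Jm] using h1
  refine ⟨?_, ?_, ?_, ?_⟩
  · rw [IsHermitian, fromBlocks_conjTranspose, hH, conjTranspose_zero]
    congr 1 <;> (ext i j; simp)
  · rintro (i | i)
    · simp
    · simp [cx, hC.diag]
  · rintro (i | i) (j | j) hij
    · exact absurd (by rw [Subsingleton.elim i j]) hij
    · simp
    · simp
    · have : i ≠ j := fun h => hij (by rw [h])
      rcases hC.off i j this with h | h <;> simp [cx, h]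
  · rw [fromBlocks_multiply, hKK, ← fromBlocks_one, fromBlocks_smul]
    congr 1
    · ext i j
      simp [Matrix.mul_apply, Matrix.one_apply, Subsingleton.elim i j]
    · ext i j
      simp [Matrix.mul_apply, hcol]
    · ext i j
      simp [Matrix.mul_apply, hrow]
    · ext i j
      simp [Matrix.mul_apply, Jm]

lemma ex_42 : Ex (2 * 21) := by
  have h41 : Nat.Prime 41 := by norm_num
  obtain ⟨F, _, _, C, hc, hC⟩ := (exists_core_of_primePow h41.isPrimePow).1 (by norm_num)
  exact ⟨Unit ⊕ F, inferInstance, inferInstance, _, sig_border hC, by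
    rw [Fintype.card_sum, hc]; rfl⟩

/-- `n` is the order of a skew core -/
def SkewOrd (n : ℕ) : Prop :=
  ∃ (ι : Type) (_ : Fintype ι) (_ : DecidableEq ι) (C : Matrix ι ι ℤ),
    Fintype.card ι = n ∧ Core (-1) C

lemma SkewOrd.mod {n : ℕ} (h : SkewOrd n) (h3 : 3 ≤ n) : n % 4 = 3 := by
  obtain ⟨ι, _, _, C, hc, hC⟩ := h
  have := core_mod hC (by rw [hc]; exact h3)
  rwa [hc] at this

lemma ex_of_par {p q : ℕ} (hp : SkewOrd p) (hq : SkewOrd q) (hp3 : 3 ≤ p) (hq3 : 3 ≤ q)
    (h : Par p q) : Ex (2 * (p * q)) := by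
  obtain ⟨α, _, _, C, hc, hC⟩ := hp
  obtain ⟨β, _, _, D, hd, hD⟩ := hq
  obtain ⟨S, hS⟩ := sig_of_par hC hD (by omega) (by omega) (by rw [hc, hd]; exact h)
  exact ⟨_, inferInstance, inferInstance, S, hS, by
    rw [Fintype.card_sum, Fintype.card_prod, hc, hd]; ring⟩

lemma ex_pair_lt {p q : ℕ} (hp : SkewOrd p) (hq : SkewOrd q) (hp3 : 3 ≤ p) (hpq : p < q) :
    Ex (2 * (p * q)) := by
  have hp4 := hp.mod hp3
  have hq4 := hq.mod (by omega)
  rcases Nat.lt_or_ge p 7 with h | h
  · have h3 : p = 3 := by omega
    subst h3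
    rcases Nat.lt_or_ge q 11 with h' | h'
    · have h7 : q = 7 := by omega
      subst h7
      exact ex_42
    · exact ex_of_par hp hq le_rfl (by omega) (par_three h' hq4)
  · exact ex_of_par hp hq hp3 (by omega) (par_ge_seven h hpq hp4 hq4)

/-- **Main theorem**: if `p`, `q` are orders of skew cores then there is a Hermitian conference
matrix of order `2 p q`. -/
theorem ex_pair {p q : ℕ} (hp : SkewOrd p) (hq : SkewOrd q) (hp3 : 3 ≤ p) (hq3 : 3 ≤ q) :
    Ex (2 * (p * q)) := by
  rcases lt_trichotomy p q with h | h | h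
  · exact ex_pair_lt hp hq hp3 h
  · subst h
    obtain ⟨ι, _, _, C, hc, hC⟩ := hp
    obtain ⟨S, hS⟩ := sig_of_symm_core (core_sq hC) (by
      rw [Fintype.card_prod, hc]; nlinarith)
    exact ⟨_, inferInstance, inferInstance, S, hS, by
      rw [Fintype.card_sum, Fintype.card_prod, hc]; ring⟩
  · rw [mul_comm p q]
    exact ex_pair_lt hq hp hq3 h

end Pool.Agent.H61.ETF
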